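import Mathlib

/-!
A forest with exactly two components, both of them caterpillars in which every vertex of degree
at least two has a neighbour of degree one, has super edge-magic deficiency at most one.
-/

set_option autoImplicit false
set_option linter.unusedSectionVars false

namespace Pool.Agent.Results.MP_6afe48_co.LeafyCaterpillars

open Finset

variable {V : Type} [Fintype V]

/-- Degree at least two. -/
def Hub (G : SimpleGraph V) (v : V) : Prop := 2 ≤ (G.neighborSet v).ncard

/-- A partial labelling of the set `S`: two colours, the labels of colour `b` are at most `M b`,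
the label `2` is not used on colour `true`, and the edge sums are exactly the numbers from `2` to
`M true + M false - 1`. -/
structure Lab (G : SimpleGraph V) (S : Finset V) (f : V → ℕ) (c : V → Bool) (M : Bool → ℕ) :
    Prop where
  two : 2 ≤ M true
  pos : ∀ v ∈ S, 1 ≤ f v
  le : ∀ v ∈ S, f v ≤ M (c v)
  hole : ∀ v ∈ S, c v = true → f v ≠ 2
  inj : ∀ u ∈ S, ∀ v ∈ S, c u = c v → f u = f v → u = v
  card : M true + M false = S.card + 1
  col : ∀ u ∈ S, ∀ v ∈ S, G.Adj u v → c u ≠ c v
  lt : ∀ u ∈ S, ∀ v ∈ S, G.Adj u v → f u + f v < M true + M false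
  sinj : ∀ u ∈ S, ∀ v ∈ S, ∀ u' ∈ S, ∀ v' ∈ S, G.Adj u v → G.Adj u' v' → c u = true →
    c u' = true → f u + f v = f u' + f v' → u = u' ∧ v = v'
  surj : ∀ s, 2 ≤ s → s < M true + M false → ∃ u ∈ S, ∃ v ∈ S, G.Adj u v ∧ f u + f v = s

lemma sum_bool (M : Bool → ℕ) (b : Bool) : M b + M (!b) = M true + M false := by
  cases b <;> simp [add_comm]

lemma update_sum (M : Bool → ℕ) (b : Bool) (n : ℕ) :
    Function.update M b (M b + n) true + Function.update M b (M b + n) false
      = M true + M false + n := by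
  cases b <;> simp [Function.update] <;> omega

/-- Placing the set `N` of new neighbours of `h`. -/
lemma Lab.step [DecidableEq V] {G : SimpleGraph V} {S : Finset V} {f : V → ℕ} {c : V → Bool}
    {M : Bool → ℕ} (L : Lab G S f c M) {h : V} (hS : h ∈ S) (hl : f h + 1 = M (c h))
    (N : Finset V) (hN : ∀ v ∈ N, v ∉ S) (hadj : ∀ v ∈ N, G.Adj h v)
    (hno : ∀ v ∈ N, ∀ u, u ∈ S ∨ u ∈ N → G.Adj v u → u = h)
    (r : V → ℕ) (hr : ∀ v ∈ N, r v < N.card) (hri : ∀ u ∈ N, ∀ v ∈ N, r u = r v → u = v)
    (hrs : ∀ j < N.card, ∃ v ∈ N, r v = j) :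
    Lab G (S ∪ N) (fun v => if v ∈ N then M (!c h) + 1 + r v else f v)
      (fun v => if v ∈ N then !c h else c v)
      (Function.update M (!c h) (M (!c h) + N.card)) := by
  have hh : h ∉ N := fun h1 => hN h h1 hS
  have key : ∀ v ∈ N, f h + (M (!c h) + 1 + r v) = M true + M false + r v := by
    intro v _
    have := sum_bool M (c h)
    omega
  have mono : ∀ b, M b ≤ Function.update M (!c h) (M (!c h) + N.card) b := by
    intro b
    by_cases hb : b = !c h
    · subst hb; simp
    · simp [Function.update, hb]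
  -- an edge inside the union is old or joins `h` to a new vertex
  have edge : ∀ u ∈ S ∪ N, ∀ v ∈ S ∪ N, G.Adj u v →
      (u ∉ N ∧ v ∉ N ∧ u ∈ S ∧ v ∈ S) ∨ (u = h ∧ v ∈ N) ∨ (v = h ∧ u ∈ N) := by
    intro u hu v hv huv
    have hu' := Finset.mem_union.mp hu
    have hv' := Finset.mem_union.mp hv
    by_cases h1 : u ∈ N
    · exact Or.inr (Or.inr ⟨hno u h1 v hv' huv, h1⟩)
    · by_cases h2 : v ∈ N
      · exact Or.inr (Or.inl ⟨hno v h2 u hu' huv.symm, h2⟩)
      · exact Or.inl ⟨h1, h2, hu'.resolve_right h1, hv'.resolve_right h2⟩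
  refine ⟨le_trans L.two (mono true), ?_, ?_, ?_, ?_, ?_, ?_, ?_, ?_, ?_⟩
  · intro v hv
    by_cases h1 : v ∈ N
    · simp only [h1, if_true]; omega
    · simp only [h1, if_false]
      exact L.pos v ((Finset.mem_union.mp hv).resolve_right h1)
  · intro v hv
    by_cases h1 : v ∈ N
    · simp only [h1, if_true, Function.update_self]
      have := hr v h1
      omega
    · simp only [h1, if_false]
      exact le_trans (L.le v ((Finset.mem_union.mp hv).resolve_right h1)) (mono _)
  · intro v hv
    by_cases h1 : v ∈ N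
    · simp only [h1, if_true]
      intro h2
      have := L.two
      rw [h2]; omega
    · simp only [h1, if_false]
      exact L.hole v ((Finset.mem_union.mp hv).resolve_right h1)
  · intro u hu v hv
    have hu' := Finset.mem_union.mp hu
    have hv' := Finset.mem_union.mp hv
    by_cases h1 : u ∈ N
    · by_cases h2 : v ∈ N
      · simp only [h1, h2, if_true]
        intro _ h3
        exact hri u h1 v h2 (by omega)
      · simp only [h1, h2, if_true, if_false]
        intro h3 h4
        have := L.le v (hv'.resolve_right h2)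
        rw [← h3] at this
        omega
    · by_cases h2 : v ∈ N
      · simp only [h1, h2, if_true, if_false]
        intro h3 h4
        have := L.le u (hu'.resolve_right h1)
        rw [h3] at this
        omega
      · simp only [h1, h2, if_false]
        exact L.inj u (hu'.resolve_right h1) v (hv'.resolve_right h2)
  · rw [update_sum, L.card, Finset.card_union_of_disjoint]
    · omega
    · rw [Finset.disjoint_left]
      intro v hv hvN
      exact hN v hvN hv
  · intro u hu v hv huv
    rcases edge u hu v hv huv with ⟨h1, h2, h3, h4⟩ | ⟨h1, h2⟩ | ⟨h1, h2⟩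
    · simp only [h1, h2, if_false]
      exact L.col u h3 v h4 huv
    · subst h1
      simp [hh, h2]
    · subst h1
      simp [hh, h2]
  · intro u hu v hv huv
    rw [update_sum]
    rcases edge u hu v hv huv with ⟨h1, h2, h3, h4⟩ | ⟨h1, h2⟩ | ⟨h1, h2⟩
    · simp only [h1, h2, if_false]
      have := L.lt u h3 v h4 huv
      omega
    · subst h1
      simp only [hh, h2, if_true, if_false]
      rw [key v h2]
      have := hr v h2
      omega
    · subst h1
      simp only [hh, h2, if_true, if_false]
      rw [add_comm, key u h2]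
      have := hr u h2
      omega
  · intro u hu v hv u' hu' v' hv' huv huv'
    rcases edge u hu v hv huv with ⟨h1, h2, h3, h4⟩ | ⟨h1, h2⟩ | ⟨h1, h2⟩
    · rcases edge u' hu' v' hv' huv' with ⟨h1', h2', h3', h4'⟩ | ⟨h1', h2'⟩ | ⟨h1', h2'⟩
      · simp only [h1, h2, h1', h2', if_false]
        exact L.sinj u h3 v h4 u' h3' v' h4' huv huv'
      · subst h1'
        simp only [h1, h2, hh, h2', if_false, if_true]
        intro _ _ h5
        rw [key v' h2'] at h5
        have := L.lt u h3 v h4 huv
        omega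
      · subst h1'
        simp only [h1, h2, hh, h2', if_false, if_true]
        intro _ _ h5
        rw [add_comm (M _ + 1 + r u') _, key u' h2'] at h5
        have := L.lt u h3 v h4 huv
        omega
    · rcases edge u' hu' v' hv' huv' with ⟨h1', h2', h3', h4'⟩ | ⟨h1', h2'⟩ | ⟨h1', h2'⟩
      · subst h1
        simp only [h1', h2', hh, h2, if_false, if_true]
        intro _ _ h5
        rw [key v h2] at h5
        have := L.lt u' h3' v' h4' huv'
        omega
      · subst h1
        subst h1'
        simp only [hh, h2, h2', if_false, if_true]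
        intro _ _ h5
        exact ⟨trivial, hri v h2 v' h2' (by omega)⟩
      · subst h1
        subst h1'
        simp only [hh, h2, h2', if_false, if_true]
        intro h5 h6
        rw [h5] at h6
        simp at h6
    · rcases edge u' hu' v' hv' huv' with ⟨h1', h2', h3', h4'⟩ | ⟨h1', h2'⟩ | ⟨h1', h2'⟩
      · subst h1
        simp only [h1', h2', hh, h2, if_false, if_true]
        intro _ _ h5
        rw [add_comm (M _ + 1 + r u) _, key u h2] at h5
        have := L.lt u' h3' v' h4' huv'
        omega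
      · subst h1
        subst h1'
        simp only [hh, h2, h2', if_false, if_true]
        intro h5 h6
        rw [h6] at h5
        simp at h5
      · subst h1
        subst h1'
        simp only [hh, h2, h2', if_false, if_true]
        intro _ _ h5
        exact ⟨hri u h2 u' h2' (by omega), trivial⟩
  · intro s hs1 hs2
    rw [update_sum] at hs2
    by_cases h1 : s < M true + M false
    · obtain ⟨u, hu, v, hv, huv, h2⟩ := L.surj s hs1 h1
      have hu1 : u ∉ N := fun h3 => hN u h3 hu
      have hv1 : v ∉ N := fun h3 => hN v h3 hv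
      refine ⟨u, Finset.mem_union_left _ hu, v, Finset.mem_union_left _ hv, huv, ?_⟩
      simp only [hu1, hv1, if_false]
      exact h2
    · obtain ⟨v, hv, h2⟩ := hrs (s - (M true + M false)) (by omega)
      refine ⟨h, Finset.mem_union_left _ hS, v, Finset.mem_union_right _ hv, hadj v hv, ?_⟩
      simp only [hh, hv, if_false, if_true]
      rw [key v hv]
      omega

/-- A numbering of a finite set. -/
lemma rank_basic (N : Finset V) : ∃ r : V → ℕ, (∀ v ∈ N, r v < N.card) ∧
    (∀ u ∈ N, ∀ v ∈ N, r u = r v → u = v) := by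
  classical
  refine ⟨fun v => if h : v ∈ N then (N.equivFin ⟨v, h⟩).val else 0, ?_, ?_⟩
  · intro v hv
    simp only [hv, dif_pos]
    exact (N.equivFin ⟨v, hv⟩).isLt
  · intro u hu v hv h
    simp only [hu, hv, dif_pos] at h
    have := N.equivFin.injective (Fin.ext h)
    exact congrArg Subtype.val this

lemma rank_surj (N : Finset V) (r : V → ℕ) (hr : ∀ v ∈ N, r v < N.card)
    (hri : ∀ u ∈ N, ∀ v ∈ N, r u = r v → u = v) : ∀ j < N.card, ∃ v ∈ N, r v = j := by
  classical
  have h1 : N.image r ⊆ Finset.range N.card := by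
    intro j hj
    obtain ⟨v, hv, rfl⟩ := Finset.mem_image.mp hj
    exact Finset.mem_range.mpr (hr v hv)
  have h2 : (N.image r).card = N.card := by
    apply Finset.card_image_of_injOn
    intro u hu v hv h
    exact hri u hu v hv h
  have h3 : N.image r = Finset.range N.card :=
    Finset.eq_of_subset_of_card_le h1 (by rw [h2, Finset.card_range])
  intro j hj
  have : j ∈ N.image r := by rw [h3]; exact Finset.mem_range.mpr hj
  exact Finset.mem_image.mp this

/-- A numbering with a prescribed last and last but one element. -/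
lemma rank_two (N : Finset V) (p q : V) (hp : p ∈ N) (hq : q ∈ N) (hpq : p ≠ q) :
    ∃ r : V → ℕ, (∀ v ∈ N, r v < N.card) ∧ (∀ u ∈ N, ∀ v ∈ N, r u = r v → u = v) ∧
      r p + 2 = N.card := by
  classical
  obtain ⟨r, hr, hri⟩ := rank_basic ((N.erase p).erase q)
  have hq1 : q ∈ N.erase p := Finset.mem_erase.mpr ⟨hpq.symm, hq⟩
  have hc1 : (N.erase p).card + 1 = N.card := Finset.card_erase_add_one hp
  have hc2 : ((N.erase p).erase q).card + 1 = (N.erase p).card := Finset.card_erase_add_one hq1
  have hm : ∀ v, v ∈ N → v ≠ p → v ≠ q → r v + 2 < N.card := by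
    intro v hv h1 h2
    have := hr v (Finset.mem_erase.mpr ⟨h2, Finset.mem_erase.mpr ⟨h1, hv⟩⟩)
    omega
  refine ⟨fun v => if v = p then N.card - 2 else if v = q then N.card - 1 else r v, ?_, ?_, ?_⟩
  · intro v hv
    by_cases h1 : v = p
    · simp only [h1, if_true]; omega
    · by_cases h2 : v = q
      · simp only [h2, hpq.symm, if_true, if_false]; omega
      · simp only [h1, h2, if_false]
        have := hm v hv h1 h2
        omega
  · intro u hu v hv
    by_cases h1 : u = p
    · by_cases h3 : v = p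
      · intro _; rw [h1, h3]
      · by_cases h4 : v = q
        · simp only [h1, h4, hpq.symm, if_true, if_false]
          intro h; omega
        · simp only [h1, h3, h4, if_true, if_false]
          intro h
          have := hm v hv h3 h4
          omega
    · by_cases h2 : u = q
      · by_cases h3 : v = p
        · simp only [h2, h3, hpq.symm, if_true, if_false]
          intro h; omega
        · by_cases h4 : v = q
          · intro _; rw [h2, h4]
          · simp only [h2, h3, h4, hpq.symm, if_true, if_false]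
            intro h
            have := hm v hv h3 h4
            omega
      · by_cases h3 : v = p
        · simp only [h1, h2, h3, if_true, if_false]
          intro h
          have := hm u hu h1 h2
          omega
        · by_cases h4 : v = q
          · simp only [h1, h2, h4, hpq.symm, if_true, if_false]
            intro h
            have := hm u hu h1 h2
            omega
          · simp only [h1, h2, h3, h4, if_false]
            intro h
            exact hri u (Finset.mem_erase.mpr ⟨h2, Finset.mem_erase.mpr ⟨h1, hu⟩⟩)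
              v (Finset.mem_erase.mpr ⟨h4, Finset.mem_erase.mpr ⟨h3, hv⟩⟩) h
  · simp only [if_true]; omega

/-- A neighbour of `v` that is not a hub has no other neighbour. -/
lemma leaf_unique {G : SimpleGraph V} {w v : V} (h : G.Adj w v) (hw : ¬ Hub G w) :
    ∀ x, G.Adj w x → x = v := by
  intro x hx
  by_contra hne
  apply hw
  have h1 : ({x, v} : Set V) ⊆ G.neighborSet w := by
    intro y hy
    rcases hy with rfl | hy
    · exact hx
    · rw [Set.mem_singleton_iff.mp hy]; exact h
  have h2 : ({x, v} : Set V).ncard = 2 := Set.ncard_pair hne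
  unfold Hub
  rw [← h2]
  exact Set.ncard_le_ncard h1 (Set.toFinite _)

lemma leaf_of_ncard {G : SimpleGraph V} {w : V} (h : (G.neighborSet w).ncard = 1) :
    ¬ Hub G w := by
  unfold Hub; omega

/-- At most two neighbours are hubs. -/
lemma three_hubs {G : SimpleGraph V}
    (H3 : ∀ v, {w | G.Adj v w ∧ 2 ≤ (G.neighborSet w).ncard}.ncard ≤ 2)
    (v a b d : V) (ha : G.Adj v a) (hb : G.Adj v b) (hd : G.Adj v d) (Ha : Hub G a)
    (Hb : Hub G b) (Hd : Hub G d) : a = b ∨ a = d ∨ b = d := by
  classical
  by_contra hne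
  push Not at hne
  obtain ⟨h1, h2, h3⟩ := hne
  have h4 : ({a, b, d} : Set V) ⊆ {w | G.Adj v w ∧ 2 ≤ (G.neighborSet w).ncard} := by
    intro y hy
    rcases hy with rfl | rfl | hy
    · exact ⟨ha, Ha⟩
    · exact ⟨hb, Hb⟩
    · rw [Set.mem_singleton_iff.mp hy]; exact ⟨hd, Hd⟩
  have h5 : ({a, b, d} : Set V).ncard = 3 := by
    rw [Set.ncard_eq_toFinset_card']
    simp [h1, h2, h3]
  have h6 := Set.ncard_le_ncard h4 (Set.toFinite _)
  have h7 := H3 v
  omega

/-- A partial labelling whose only unfinished vertex is `h`. -/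
structure Opn (G : SimpleGraph V) (h0 : V) (S : Finset V) (h : V) (f : V → ℕ) (c : V → Bool)
    (M : Bool → ℕ) : Prop where
  lab : Lab G S f c M
  mem : h ∈ S
  mem0 : h0 ∈ S
  hl : f h + 1 = M (c h)
  closed : ∀ v ∈ S, v ≠ h → ∀ w, G.Adj v w → w ∈ S
  nin : ∀ w ∈ S, G.Adj h w → Hub G w
  one : ∀ w w', w ∉ S → w' ∉ S → G.Adj h w → G.Adj h w' → Hub G w → Hub G w' → w = w'
  hub : ∀ w, w ∉ S → G.Adj h w → Hub G w → Hub G h
  reach : ∀ v ∈ S, G.Reachable h0 v

/-- Growing a partial labelling until the component is complete. -/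
lemma Opn.finish {G : SimpleGraph V}
    (H3 : ∀ v, {w | G.Adj v w ∧ 2 ≤ (G.neighborSet w).ncard}.ncard ≤ 2)
    (H4 : ∀ v, 2 ≤ (G.neighborSet v).ncard → ∃ w, G.Adj v w ∧ (G.neighborSet w).ncard = 1)
    (h0 : V) : ∀ (k : ℕ) (S : Finset V) (h : V) (f : V → ℕ) (c : V → Bool) (M : Bool → ℕ),
    Opn G h0 S h f c M → Fintype.card V ≤ S.card + k →
    ∃ (S' : Finset V) (f' : V → ℕ) (c' : V → Bool) (M' : Bool → ℕ), Lab G S' f' c' M' ∧
      h0 ∈ S' ∧ (∀ v ∈ S', ∀ w, G.Adj v w → w ∈ S') ∧ (∀ v ∈ S', G.Reachable h0 v) := by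
  classical
  intro k
  induction k using Nat.strong_induction_on with
  | _ k ih =>
  intro S h f c M O hk
  set N : Finset V := Finset.univ.filter (fun v => G.Adj h v ∧ v ∉ S) with hNdef
  have memN : ∀ v, v ∈ N ↔ G.Adj h v ∧ v ∉ S := by
    intro v; simp [hNdef]
  have hN : ∀ v ∈ N, v ∉ S := fun v hv => ((memN v).mp hv).2
  have hadj : ∀ v ∈ N, G.Adj h v := fun v hv => ((memN v).mp hv).1
  -- all neighbours of `h` lie in the union
  have hall : ∀ w, G.Adj h w → w ∈ S ∪ N := by
    intro w hw
    by_cases h1 : w ∈ S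
    · exact Finset.mem_union_left _ h1
    · exact Finset.mem_union_right _ ((memN w).mpr ⟨hw, h1⟩)
  by_cases hex : ∃ g, g ∉ S ∧ G.Adj h g ∧ Hub G g
  · obtain ⟨g, hg1, hg2, hg3⟩ := hex
    have hgN : g ∈ N := (memN g).mpr ⟨hg2, hg1⟩
    have hh : Hub G h := O.hub g hg1 hg2 hg3
    obtain ⟨w, hw1, hw2⟩ := H4 h hh
    have hwl : ¬ Hub G w := leaf_of_ncard hw2
    have hwS : w ∉ S := fun h1 => hwl (O.nin w h1 hw1)
    have hwN : w ∈ N := (memN w).mpr ⟨hw1, hwS⟩
    have hgw : g ≠ w := fun h1 => hwl (h1 ▸ hg3)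
    have hleaf : ∀ v ∈ N, v ≠ g → ¬ Hub G v := by
      intro v hv hvg hv1
      exact hvg (O.one v g (hN v hv) hg1 (hadj v hv) hg2 hv1 hg3)
    have hno : ∀ v ∈ N, ∀ u, u ∈ S ∨ u ∈ N → G.Adj v u → u = h := by
      intro v hv u hu hvu
      by_cases h1 : v = g
      · subst h1
        rcases hu with hu | hu
        · by_contra h2
          exact hg1 (O.closed u hu h2 v hvu.symm)
        · by_cases h3 : u = v
          · subst h3; exact absurd hvu (G.loopless.irrefl u)
          · have := leaf_unique (hadj u hu).symm (hleaf u hu h3) v hvu.symm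
            subst this
            exact absurd (hadj v hv) (G.loopless.irrefl v)
      · exact leaf_unique (hadj v hv).symm (hleaf v hv h1) u hvu
    obtain ⟨r, hr, hri, hrp⟩ := rank_two N g w hgN hwN hgw
    have L := O.lab.step O.mem O.hl N hN hadj hno r hr hri (rank_surj N r hr hri)
    have hlt : S.card < (S ∪ N).card := by
      apply Finset.card_lt_card
      refine ⟨Finset.subset_union_left, fun h1 => hg1 (h1 (Finset.mem_union_right _ hgN))⟩
    have O' : Opn G h0 (S ∪ N) g (fun v => if v ∈ N then M (!c h) + 1 + r v else f v)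
        (fun v => if v ∈ N then !c h else c v)
        (Function.update M (!c h) (M (!c h) + N.card)) := by
      refine ⟨L, Finset.mem_union_right _ hgN, Finset.mem_union_left _ O.mem0, ?_, ?_, ?_, ?_,
        ?_, ?_⟩
      · simp only [hgN, if_true, Function.update_self]
        omega
      · intro v hv hvg x hx
        rcases Finset.mem_union.mp hv with h1 | h1
        · by_cases h2 : v = h
          · subst h2; exact hall x hx
          · exact Finset.mem_union_left _ (O.closed v h1 h2 x hx)
        · have := leaf_unique (hadj v h1).symm (hleaf v h1 hvg) x hx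
          rw [this]
          exact Finset.mem_union_left _ O.mem
      · intro x hx hgx
        have := hno g hgN x (Finset.mem_union.mp hx) hgx
        rw [this]; exact hh
      · intro x x' hx hx' h1 h2 h3 h4
        have h5 := three_hubs H3 g h x x' hg2.symm h1 h2 hh h3 h4
        rcases h5 with h5 | h5 | h5
        · exact absurd (h5 ▸ Finset.mem_union_left N O.mem) hx
        · exact absurd (h5 ▸ Finset.mem_union_left N O.mem) hx'
        · exact h5
      · intro x _ _ _
        exact hg3
      · intro v hv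
        rcases Finset.mem_union.mp hv with h1 | h1
        · exact O.reach v h1
        · exact (O.reach h O.mem).trans (hadj v h1).reachable
    have hkpos : 0 < k := by
      have h1 : (S ∪ N).card ≤ Fintype.card V := Finset.card_le_univ _
      omega
    exact ih (k - 1) (by omega) _ _ _ _ _ O' (by omega)
  · push Not at hex
    have hleaf : ∀ v ∈ N, ¬ Hub G v := fun v hv => hex v (hN v hv) (hadj v hv)
    have hno : ∀ v ∈ N, ∀ u, u ∈ S ∨ u ∈ N → G.Adj v u → u = h := by
      intro v hv u _ hvu
      exact leaf_unique (hadj v hv).symm (hleaf v hv) u hvu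
    obtain ⟨r, hr, hri⟩ := rank_basic N
    have L := O.lab.step O.mem O.hl N hN hadj hno r hr hri (rank_surj N r hr hri)
    refine ⟨_, _, _, _, L, Finset.mem_union_left _ O.mem0, ?_, ?_⟩
    · intro v hv x hx
      rcases Finset.mem_union.mp hv with h1 | h1
      · by_cases h2 : v = h
        · subst h2; exact hall x hx
        · exact Finset.mem_union_left _ (O.closed v h1 h2 x hx)
      · have := leaf_unique (hadj v h1).symm (hleaf v h1) x hx
        rw [this]
        exact Finset.mem_union_left _ O.mem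
    · intro v hv
      rcases Finset.mem_union.mp hv with h1 | h1
      · exact O.reach v h1
      · exact (O.reach h O.mem).trans (hadj v h1).reachable

/-- Every component has a vertex from which the labelling can be started. -/
lemma exists_start {G : SimpleGraph V} (hG : G.IsAcyclic) (C : G.ConnectedComponent) :
    ∃ h0, G.connectedComponentMk h0 = C ∧
      (∀ w w', G.Adj h0 w → G.Adj h0 w' → Hub G w → Hub G w' → w = w') ∧
      (∀ w, G.Adj h0 w → Hub G w → Hub G h0) := by
  classical
  by_cases hex : ∃ v, G.connectedComponentMk v = C ∧ Hub G v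
  · obtain ⟨v, hv, hv2⟩ := hex
    set K := G.induce {x | Hub G x} with hK
    set D : K.ConnectedComponent := K.connectedComponentMk ⟨v, hv2⟩ with hD
    have hT : D.toSimpleGraph.IsTree := (hG.induce _).isTree_connectedComponent D
    have hreach : ∀ y : D, G.connectedComponentMk (y.1.1) = C := by
      intro y
      rw [← hv]
      have h1 : K.connectedComponentMk y.1 = D := y.2
      have h2 : K.Reachable y.1 ⟨v, hv2⟩ := SimpleGraph.ConnectedComponent.exact (h1.trans hD)
      apply SimpleGraph.ConnectedComponent.sound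
      exact h2.map (SimpleGraph.Embedding.induce _).toHom
    have hmemD : ∀ (y : D) (w : V) (hw : Hub G w), G.Adj y.1.1 w →
        (⟨w, hw⟩ : {x | Hub G x}) ∈ D.supp := by
      intro y w hw hyw
      have h1 : K.Adj y.1 ⟨w, hw⟩ := hyw
      have h2 : K.connectedComponentMk y.1 = D := y.2
      rw [SimpleGraph.ConnectedComponent.mem_supp_iff, ← h2]
      exact SimpleGraph.ConnectedComponent.sound h1.symm.reachable
    by_cases hnt : Nontrivial D
    · obtain ⟨y, hy⟩ := hT.exists_vert_degree_one_of_nontrivial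
      refine ⟨y.1.1, hreach y, ?_, ?_⟩
      · intro w w' hw hw' Hw Hw'
        have h1 := hmemD y w Hw hw
        have h2 := hmemD y w' Hw' hw'
        rw [SimpleGraph.degree_eq_one_iff_existsUnique_adj] at hy
        have h3 := hy.unique (y₁ := ⟨⟨w, Hw⟩, h1⟩) (y₂ := ⟨⟨w', Hw'⟩, h2⟩) hw hw'
        exact congrArg (fun z : D => z.1.1) h3
      · intro _ _ _
        exact y.1.2
    · rw [not_nontrivial_iff_subsingleton] at hnt
      have hvD : (⟨v, hv2⟩ : {x | Hub G x}) ∈ D.supp := rfl
      refine ⟨v, hv, ?_, ?_⟩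
      · intro w w' hw hw' Hw Hw'
        have h1 := hmemD ⟨⟨v, hv2⟩, hvD⟩ w Hw hw
        have h3 := hnt.elim (⟨⟨w, Hw⟩, h1⟩ : D) ⟨⟨v, hv2⟩, hvD⟩
        have h4 : w = v := congrArg (fun z : D => z.1.1) h3
        subst h4
        exact absurd hw (G.loopless.irrefl w)
      · intro _ _ _
        exact hv2
  · push Not at hex
    obtain ⟨v, hv⟩ := C.exists_rep
    have hnb : ∀ w, G.Adj v w → ¬ Hub G w := by
      intro w hw
      apply hex w
      rw [← hv]
      exact SimpleGraph.ConnectedComponent.sound hw.symm.reachable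
    exact ⟨v, hv, fun w _ hw _ h1 _ => absurd h1 (hnb w hw), fun w hw h1 => absurd h1 (hnb w hw)⟩

/-- Every component is labelled. -/
lemma component_lab {G : SimpleGraph V} (hG : G.IsAcyclic)
    (H3 : ∀ v, {w | G.Adj v w ∧ 2 ≤ (G.neighborSet w).ncard}.ncard ≤ 2)
    (H4 : ∀ v, 2 ≤ (G.neighborSet v).ncard → ∃ w, G.Adj v w ∧ (G.neighborSet w).ncard = 1)
    (C : G.ConnectedComponent) :
    ∃ (S : Finset V) (f : V → ℕ) (c : V → Bool) (M : Bool → ℕ), Lab G S f c M ∧
      ∀ v, v ∈ S ↔ G.connectedComponentMk v = C := by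
  classical
  obtain ⟨h0, hC, h1, h2⟩ := exists_start hG C
  have O : Opn G h0 {h0} h0 (fun _ => 1) (fun _ => true) (fun b => if b then 2 else 0) := by
    refine ⟨?_, by simp, by simp, by simp, by simp, ?_, ?_, ?_, ?_⟩
    · refine ⟨by simp, by simp, by simp, by simp, by simp, by simp, ?_, ?_, ?_, ?_⟩
      · intro u hu v hv huv
        rw [Finset.mem_singleton] at hu hv
        subst hu; subst hv
        exact absurd huv (G.loopless.irrefl _)
      · intro u hu v hv huv
        rw [Finset.mem_singleton] at hu hv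
        subst hu; subst hv
        exact absurd huv (G.loopless.irrefl _)
      · intro u hu v hv _ _ _ _ huv
        rw [Finset.mem_singleton] at hu hv
        subst hu; subst hv
        exact absurd huv (G.loopless.irrefl _)
      · intro s hs hs2
        simp at hs2
        omega
    · intro w hw hw2
      rw [Finset.mem_singleton] at hw
      subst hw
      exact absurd hw2 (G.loopless.irrefl _)
    · intro w w' _ _ h3 h4 h5 h6
      exact h1 w w' h3 h4 h5 h6
    · intro w _ h3 h4
      exact h2 w h3 h4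
    · intro v hv
      rw [Finset.mem_singleton] at hv
      subst hv
      exact SimpleGraph.Reachable.refl _
  obtain ⟨S, f, c, M, L, hm, hcl, hre⟩ :=
    Opn.finish H3 H4 h0 (Fintype.card V) _ _ _ _ _ O (by omega)
  refine ⟨S, f, c, M, L, ?_⟩
  intro v
  constructor
  · intro hv
    rw [← hC]
    exact SimpleGraph.ConnectedComponent.sound (hre v hv).symm
  · intro hv
    rw [← hC] at hv
    have h3 : G.Reachable h0 v := (SimpleGraph.ConnectedComponent.exact hv).symm
    obtain ⟨p⟩ := h3
    clear hv hre L O h1 h2 hC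
    induction p with
    | nil => exact hm
    | cons hadj _ ih => exact ih (hcl _ hm _ hadj)

/-- Every forest with exactly two components in which every vertex has at most two neighbours of
degree at least two and every vertex of degree at least two has a neighbour of degree one has
super edge-magic deficiency at most one. -/
theorem result :
    ∀ (V : Type) [Fintype V] (G : SimpleGraph V),
      G.IsAcyclic → Nat.card G.ConnectedComponent = 2 →
      (∀ v, {w | G.Adj v w ∧ 2 ≤ (G.neighborSet w).ncard}.ncard ≤ 2) →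
      (∀ v, 2 ≤ (G.neighborSet v).ncard → ∃ w, G.Adj v w ∧ (G.neighborSet w).ncard = 1) →
      ∃ n : ℕ, n ≤ 1 ∧
        ∃ f : V → ℕ, Function.Injective f ∧
          (∀ v, 1 ≤ f v ∧ f v ≤ Fintype.card V + n) ∧
          ∃ g : G.edgeSet → ℕ, Function.Injective g ∧
            (∀ e, Fintype.card V + n + 1 ≤ g e ∧
                  g e ≤ Fintype.card V + n + Nat.card G.edgeSet) ∧
            ∃ k : ℕ, ∀ (e : G.edgeSet) (u v : V),
              e.val = s(u, v) → f u + f v + g e = k := by
  intro V _ G hG hC H3 H4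
  classical
  obtain ⟨C1, C2, hne, huniv⟩ := Nat.card_eq_two_iff.mp hC
  have hcase : ∀ v, G.connectedComponentMk v = C1 ∨ G.connectedComponentMk v = C2 := by
    intro v
    have h1 : G.connectedComponentMk v ∈ ({C1, C2} : Set G.ConnectedComponent) := by
      rw [huniv]; exact Set.mem_univ _
    simpa using h1
  obtain ⟨S1, f1, c1, M1, L1, hS1⟩ := component_lab hG H3 H4 C1
  obtain ⟨S2, f2, c2, M2, L2, hS2⟩ := component_lab hG H3 H4 C2
  have hdisj : ∀ v, v ∈ S1 → v ∉ S2 := by
    intro v h1 h2
    exact hne (((hS1 v).mp h1).symm.trans ((hS2 v).mp h2))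
  have hcov : ∀ v, v ∉ S1 → v ∈ S2 := by
    intro v h1
    rcases hcase v with h2 | h2
    · exact absurd ((hS1 v).mpr h2) h1
    · exact (hS2 v).mpr h2
  have hp : S1.card + S2.card = Fintype.card V := by
    rw [← Finset.card_union_of_disjoint (Finset.disjoint_left.mpr hdisj), ← Finset.card_univ]
    congr 1
    ext v
    simp only [Finset.mem_union, Finset.mem_univ, iff_true]
    by_cases h : v ∈ S1
    · exact Or.inl h
    · exact Or.inr (hcov v h)
  obtain ⟨A1, hA1⟩ : ∃ x, x = M1 true := ⟨_, rfl⟩
  obtain ⟨B1, hB1⟩ : ∃ x, x = M1 false := ⟨_, rfl⟩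
  obtain ⟨A2, hA2⟩ : ∃ x, x = M2 true := ⟨_, rfl⟩
  obtain ⟨B2, hB2⟩ : ∃ x, x = M2 false := ⟨_, rfl⟩
  have t1 : 2 ≤ A1 := hA1 ▸ L1.two
  have t2 : 2 ≤ A2 := hA2 ▸ L2.two
  have d1 : A1 + B1 = S1.card + 1 := by rw [hA1, hB1]; exact L1.card
  have d2 : A2 + B2 = S2.card + 1 := by rw [hA2, hB2]; exact L2.card
  obtain ⟨F, hF⟩ : ∃ F : V → ℕ, ∀ v, F v = if v ∈ S1 then
      (if c1 v = true then A1 + 1 - f1 v else A1 + A2 + B1 - 1 - f1 v) else
      (if c2 v = true then A1 - 2 + f2 v else A1 + A2 + B1 - 1 + f2 v) := ⟨_, fun _ => rfl⟩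
  have FX1 : ∀ v, v ∈ S1 → c1 v = true → F v + f1 v = A1 + 1 ∧ 1 ≤ f1 v ∧ f1 v ≤ A1 ∧
      f1 v ≠ 2 := by
    intro v h1 h2
    have h3 := L1.pos v h1
    have h4 := L1.le v h1
    have h5 := L1.hole v h1 h2
    rw [h2, ← hA1] at h4
    rw [hF v, if_pos h1, if_pos h2]
    omega
  have FY1 : ∀ v, v ∈ S1 → c1 v = false → F v + f1 v = A1 + A2 + B1 - 1 ∧ 1 ≤ f1 v ∧
      f1 v ≤ B1 := by
    intro v h1 h2
    have h3 := L1.pos v h1
    have h4 := L1.le v h1
    rw [h2, ← hB1] at h4
    rw [hF v, if_pos h1, if_neg (by simp [h2])]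
    omega
  have FX2 : ∀ v, v ∉ S1 → c2 v = true → F v = A1 - 2 + f2 v ∧ 1 ≤ f2 v ∧ f2 v ≤ A2 ∧
      f2 v ≠ 2 := by
    intro v h1 h2
    have h3 := L2.pos v (hcov v h1)
    have h4 := L2.le v (hcov v h1)
    have h5 := L2.hole v (hcov v h1) h2
    rw [h2, ← hA2] at h4
    rw [hF v, if_neg h1, if_pos h2]
    omega
  have FY2 : ∀ v, v ∉ S1 → c2 v = false → F v = A1 + A2 + B1 - 1 + f2 v ∧ 1 ≤ f2 v ∧
      f2 v ≤ B2 := by
    intro v h1 h2
    have h3 := L2.pos v (hcov v h1)
    have h4 := L2.le v (hcov v h1)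
    rw [h2, ← hB2] at h4
    rw [hF v, if_neg h1, if_neg (by simp [h2])]
    omega
  have kinds : ∀ v, (v ∈ S1 ∧ c1 v = true) ∨ (v ∈ S1 ∧ c1 v = false) ∨
      (v ∉ S1 ∧ c2 v = true) ∨ (v ∉ S1 ∧ c2 v = false) := by
    intro v
    by_cases h : v ∈ S1
    · cases hc : c1 v
      · exact Or.inr (Or.inl ⟨h, rfl⟩)
      · exact Or.inl ⟨h, rfl⟩
    · cases hc : c2 v
      · exact Or.inr (Or.inr (Or.inr ⟨h, rfl⟩))
      · exact Or.inr (Or.inr (Or.inl ⟨h, rfl⟩))
  have hFinj : Function.Injective F := by
    intro u v huv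
    rcases kinds u with ⟨a, b⟩ | ⟨a, b⟩ | ⟨a, b⟩ | ⟨a, b⟩ <;>
      rcases kinds v with ⟨a', b'⟩ | ⟨a', b'⟩ | ⟨a', b'⟩ | ⟨a', b'⟩
    · have e1 := FX1 u a b
      have e2 := FX1 v a' b'
      exact L1.inj u a v a' (by rw [b, b']) (by omega)
    · have e1 := FX1 u a b
      have e2 := FY1 v a' b'
      omega
    · have e1 := FX1 u a b
      have e2 := FX2 v a' b'
      omega
    · have e1 := FX1 u a b
      have e2 := FY2 v a' b'
      omega
    · have e1 := FY1 u a b
      have e2 := FX1 v a' b'
      omega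
    · have e1 := FY1 u a b
      have e2 := FY1 v a' b'
      exact L1.inj u a v a' (by rw [b, b']) (by omega)
    · have e1 := FY1 u a b
      have e2 := FX2 v a' b'
      omega
    · have e1 := FY1 u a b
      have e2 := FY2 v a' b'
      omega
    · have e1 := FX2 u a b
      have e2 := FX1 v a' b'
      omega
    · have e1 := FX2 u a b
      have e2 := FY1 v a' b'
      omega
    · have e1 := FX2 u a b
      have e2 := FX2 v a' b'
      exact L2.inj u (hcov u a) v (hcov v a') (by rw [b, b']) (by omega)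
    · have e1 := FX2 u a b
      have e2 := FY2 v a' b'
      omega
    · have e1 := FY2 u a b
      have e2 := FX1 v a' b'
      omega
    · have e1 := FY2 u a b
      have e2 := FY1 v a' b'
      omega
    · have e1 := FY2 u a b
      have e2 := FX2 v a' b'
      omega
    · have e1 := FY2 u a b
      have e2 := FY2 v a' b'
      exact L2.inj u (hcov u a) v (hcov v a') (by rw [b, b']) (by omega)
  have hFr : ∀ v, 1 ≤ F v ∧ F v ≤ Fintype.card V + 1 := by
    intro v
    rcases kinds v with ⟨a, b⟩ | ⟨a, b⟩ | ⟨a, b⟩ | ⟨a, b⟩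
    · have e1 := FX1 v a b
      omega
    · have e1 := FY1 v a b
      omega
    · have e1 := FX2 v a b
      omega
    · have e1 := FY2 v a b
      omega
  -- orientation of the edges
  have orient : ∀ u v, G.Adj u v → ∃ x y, s(x, y) = s(u, v) ∧ G.Adj x y ∧
      ((x ∈ S1 ∧ y ∈ S1 ∧ c1 x = true ∧ c1 y = false) ∨
        (x ∉ S1 ∧ y ∉ S1 ∧ c2 x = true ∧ c2 y = false)) := by
    intro u v huv
    have hcc : G.connectedComponentMk u = G.connectedComponentMk v :=
      SimpleGraph.ConnectedComponent.sound huv.reachable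
    by_cases hu : u ∈ S1
    · have hv : v ∈ S1 := (hS1 v).mpr (hcc ▸ (hS1 u).mp hu)
      have hcol := L1.col u hu v hv huv
      cases hc : c1 u
      · refine ⟨v, u, Sym2.eq_swap, huv.symm, Or.inl ⟨hv, hu, ?_, hc⟩⟩
        cases hc' : c1 v
        · rw [hc, hc'] at hcol; exact absurd rfl hcol
        · rfl
      · refine ⟨u, v, rfl, huv, Or.inl ⟨hu, hv, hc, ?_⟩⟩
        cases hc' : c1 v
        · rfl
        · rw [hc, hc'] at hcol; exact absurd rfl hcol
    · have hv : v ∉ S1 := fun h => hu ((hS1 u).mpr (hcc.trans ((hS1 v).mp h)))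
      have hcol := L2.col u (hcov u hu) v (hcov v hv) huv
      cases hc : c2 u
      · refine ⟨v, u, Sym2.eq_swap, huv.symm, Or.inr ⟨hv, hu, ?_, hc⟩⟩
        cases hc' : c2 v
        · rw [hc, hc'] at hcol; exact absurd rfl hcol
        · rfl
      · refine ⟨u, v, rfl, huv, Or.inr ⟨hu, hv, hc, ?_⟩⟩
        cases hc' : c2 v
        · rfl
        · rw [hc, hc'] at hcol; exact absurd rfl hcol
  have sum1 : ∀ x y, G.Adj x y → x ∈ S1 → y ∈ S1 → c1 x = true → c1 y = false →
      F x + F y + (f1 x + f1 y) = 2 * A1 + A2 + B1 ∧ 2 ≤ f1 x + f1 y ∧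
        f1 x + f1 y < A1 + B1 := by
    intro x y h h1 h2 h3 h4
    have e1 := FX1 x h1 h3
    have e2 := FY1 y h2 h4
    have e3 := L1.lt x h1 y h2 h
    rw [← hA1, ← hB1] at e3
    omega
  have sum2 : ∀ x y, G.Adj x y → x ∉ S1 → y ∉ S1 → c2 x = true → c2 y = false →
      F x + F y + 3 = 2 * A1 + A2 + B1 + (f2 x + f2 y) ∧ 2 ≤ f2 x + f2 y ∧
        f2 x + f2 y < A2 + B2 := by
    intro x y h h1 h2 h3 h4
    have e1 := FX2 x h1 h3
    have e2 := FY2 y h2 h4
    have e3 := L2.lt x (hcov x h1) y (hcov y h2) h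
    rw [← hA2, ← hB2] at e3
    omega
  -- the sum of an edge
  obtain ⟨σ, hσ⟩ : ∃ σ : Sym2 V → ℕ, ∀ u v, σ s(u, v) = F u + F v :=
    ⟨Sym2.lift ⟨fun u v => F u + F v, fun u v => add_comm _ _⟩, fun _ _ => rfl⟩
  have hσr : ∀ e ∈ G.edgeSet, A1 + A2 + 1 ≤ σ e ∧ σ e + 4 ≤ 2 * A1 + 2 * A2 + B1 + B2 := by
    intro e he
    induction e using Sym2.inductionOn with
    | _ u v =>
    obtain ⟨x, y, h1, h2, h3⟩ := orient u v he
    rw [← h1, hσ]
    rcases h3 with ⟨a, b, d, e⟩ | ⟨a, b, d, e⟩
    · have := sum1 x y h2 a b d e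
      omega
    · have := sum2 x y h2 a b d e
      omega
  have hσi : ∀ e ∈ G.edgeSet, ∀ e' ∈ G.edgeSet, σ e = σ e' → e = e' := by
    intro e he e' he'
    induction e using Sym2.inductionOn with
    | _ u v =>
    induction e' using Sym2.inductionOn with
    | _ u' v' =>
    obtain ⟨x, y, h1, h2, h3⟩ := orient u v he
    obtain ⟨x', y', h1', h2', h3'⟩ := orient u' v' he'
    rw [← h1, ← h1', hσ, hσ]
    intro hs
    rcases h3 with ⟨a, b, d, e⟩ | ⟨a, b, d, e⟩
    · have q1 := sum1 x y h2 a b d e
      rcases h3' with ⟨a', b', d', e'⟩ | ⟨a', b', d', e'⟩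
      · have q2 := sum1 x' y' h2' a' b' d' e'
        obtain ⟨r1, r2⟩ := L1.sinj x a y b x' a' y' b' h2 h2' d d' (by omega)
        rw [r1, r2]
      · have q2 := sum2 x' y' h2' a' b' d' e'
        omega
    · have q1 := sum2 x y h2 a b d e
      rcases h3' with ⟨a', b', d', e'⟩ | ⟨a', b', d', e'⟩
      · have q2 := sum1 x' y' h2' a' b' d' e'
        omega
      · have q2 := sum2 x' y' h2' a' b' d' e'
        obtain ⟨r1, r2⟩ := L2.sinj x (hcov x a) y (hcov y b) x' (hcov x' a') y' (hcov y' b')
          h2 h2' d d' (by omega)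
        rw [r1, r2]
  -- counting the edges
  have hcount : Fintype.card V ≤ Nat.card G.edgeSet + 2 := by
    have h1 : Finset.Icc (A1 + A2 + 1) (2 * A1 + 2 * A2 + B1 + B2 - 4) ⊆
        (Finset.univ : Finset G.edgeSet).image (fun e => σ e.val) := by
      intro t ht
      rw [Finset.mem_Icc] at ht
      by_cases hcs : t + 2 ≤ 2 * A1 + A2 + B1
      · obtain ⟨u, hu, v, hv, huv, h2⟩ := L1.surj (2 * A1 + A2 + B1 - t) (by omega)
          (by rw [← hA1, ← hB1]; omega)
        obtain ⟨x, y, h3, h4, h5⟩ := orient u v huv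
        refine Finset.mem_image.mpr ⟨⟨s(u, v), huv⟩, Finset.mem_univ _, ?_⟩
        have hxy : f1 x + f1 y = f1 u + f1 v := by
          rcases Sym2.eq_iff.mp h3 with ⟨r1, r2⟩ | ⟨r1, r2⟩
          · rw [r1, r2]
          · rw [r1, r2, add_comm]
        have hx : x ∈ S1 := by
          rcases Sym2.eq_iff.mp h3 with ⟨r1, r2⟩ | ⟨r1, r2⟩
          · rw [r1]; exact hu
          · rw [r1]; exact hv
        show σ s(u, v) = t
        rw [← h3, hσ]
        rcases h5 with ⟨a, b, d, e⟩ | ⟨a, b, d, e⟩
        · have := sum1 x y h4 a b d e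
          omega
        · exact absurd hx a
      · obtain ⟨u, hu, v, hv, huv, h2⟩ := L2.surj (t + 3 - (2 * A1 + A2 + B1)) (by omega)
          (by rw [← hA2, ← hB2]; omega)
        obtain ⟨x, y, h3, h4, h5⟩ := orient u v huv
        refine Finset.mem_image.mpr ⟨⟨s(u, v), huv⟩, Finset.mem_univ _, ?_⟩
        have hxy : f2 x + f2 y = f2 u + f2 v := by
          rcases Sym2.eq_iff.mp h3 with ⟨r1, r2⟩ | ⟨r1, r2⟩
          · rw [r1, r2]
          · rw [r1, r2, add_comm]
        have hx : x ∉ S1 := by
          rcases Sym2.eq_iff.mp h3 with ⟨r1, r2⟩ | ⟨r1, r2⟩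
          · rw [r1]; exact fun h => hdisj u h hu
          · rw [r1]; exact fun h => hdisj v h hv
        show σ s(u, v) = t
        rw [← h3, hσ]
        rcases h5 with ⟨a, b, d, e⟩ | ⟨a, b, d, e⟩
        · exact absurd a hx
        · have := sum2 x y h4 a b d e
          omega
    have h2 := Finset.card_le_card h1
    have h3 : ((Finset.univ : Finset G.edgeSet).image (fun e => σ e.val)).card
        ≤ Nat.card G.edgeSet := by
      refine le_trans Finset.card_image_le ?_
      rw [Nat.card_eq_fintype_card, Finset.card_univ]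
    rw [Nat.card_Icc] at h2
    omega
  refine ⟨1, le_refl 1, F, hFinj, hFr,
    fun e => Fintype.card V + 2 + (2 * A1 + 2 * A2 + B1 + B2) - 4 - σ e.val, ?_, ?_,
    Fintype.card V + 2 + (2 * A1 + 2 * A2 + B1 + B2) - 4, ?_⟩
  · intro e e' hee
    have r1 := hσr e.val e.2
    have r2 := hσr e'.val e'.2
    simp only at hee
    exact Subtype.ext (hσi e.val e.2 e'.val e'.2 (by omega))
  · intro e
    have r1 := hσr e.val e.2
    simp only
    omega
  · intro e u v he
    have r1 := hσr e.val e.2
    have r2 : σ e.val = F u + F v := by rw [he, hσ]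
    simp only
    omega

end Pool.Agent.Results.MP_6afe48_co.LeafyCaterpillars
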