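import Mathlib
import Pool.Agent.SEMD.PathLab

/-!
The disjoint union of a tree with an alpha-labelling and a path which is long compared with the
smaller colour class of the tree has super edge-magic deficiency at most one.
-/

set_option autoImplicit false

namespace Pool.Agent.Results.MP_6afe48_co.PathAndAlphaTree

open SEMD

/-- The union of a path and a graph with a bipartite consecutive labelling. -/
lemma main {V : Type} [Fintype V] (T : SimpleGraph V) (hT : T.IsTree) (c : V → Bool) (l : V → ℕ)
    (a2 b2 m : ℕ) (hab : a2 + b2 = Fintype.card V) (hpos : ∀ v, 1 ≤ l v)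
    (hle1 : ∀ v, c v = true → l v ≤ a2) (hle2 : ∀ v, c v = false → l v ≤ b2)
    (hinj : ∀ u v, c u = c v → l u = l v → u = v) (hcol : ∀ u v, T.Adj u v → c u ≠ c v)
    (hsum : ∀ u v u' v', T.Adj u v → T.Adj u' v' → c u = true → c u' = true →
      l u + l v = l u' + l v' → u = u' ∧ v = v') (hm : b2 < m / 2) :
    ∃ n : ℕ, n ≤ 1 ∧
      ∃ f : V ⊕ Fin m → ℕ, Function.Injective f ∧
        (∀ v, 1 ≤ f v ∧ f v ≤ Fintype.card (V ⊕ Fin m) + n) ∧
        ∃ g : (T ⊕g SimpleGraph.pathGraph m).edgeSet → ℕ, Function.Injective g ∧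
          (∀ e, Fintype.card (V ⊕ Fin m) + n + 1 ≤ g e ∧
                g e ≤ Fintype.card (V ⊕ Fin m) + n +
                  Nat.card (T ⊕g SimpleGraph.pathGraph m).edgeSet) ∧
          ∃ k : ℕ, ∀ (e : (T ⊕g SimpleGraph.pathGraph m).edgeSet) (u v : V ⊕ Fin m),
            e.val = s(u, v) → f u + f v + g e = k := by
  classical
  -- the label of the second vertex of the path
  obtain ⟨i, hi1, hi2, hi3⟩ : ∃ i, 1 ≤ i ∧ (i + b2 = m / 2 ∨ i + b2 + 1 = m / 2) ∧
      (m - 1 = 1 ∨ (m - 1) % 2 = 0 ∨ 2 * i ≠ (m - 1 + 1) / 2 + 1) := by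
    by_cases h : m - 1 = 1 ∨ (m - 1) % 2 = 0 ∨ 2 * (m / 2 - b2) ≠ (m - 1 + 1) / 2 + 1
    · exact ⟨m / 2 - b2, by omega, by omega, h⟩
    · refine ⟨m / 2 - b2 - 1, ?_, ?_, ?_⟩ <;> omega
  obtain ⟨L, P⟩ := PL.exists (m - 1) i hi1 (by omega) hi3
  obtain ⟨A, hA⟩ : ∃ A, A = m / 2 := ⟨_, rfl⟩
  obtain ⟨B, hB⟩ : ∃ B, B = (m - 1) / 2 := ⟨_, rfl⟩
  obtain ⟨O, hO⟩ : ∃ O, O = A + a2 := ⟨_, rfl⟩
  obtain ⟨F, hF⟩ : ∃ F : V ⊕ Fin m → ℕ, F = Sum.elim
      (fun v => if c v = true then A + l v else O + B + l v)
      (fun j => if j.val = 0 then O + (A + B + 1 - i) else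
        if (j.val - 1) % 2 = 0 then L (j.val - 1) else O + L (j.val - 1)) := ⟨_, rfl⟩
  have hcard : Fintype.card (V ⊕ Fin m) = a2 + b2 + m := by
    rw [Fintype.card_sum, Fintype.card_fin, hab]
  -- values of the labelling
  have FV1 : ∀ v, c v = true → F (Sum.inl v) = A + l v ∧ 1 ≤ l v ∧ l v ≤ a2 := by
    intro v hv
    refine ⟨?_, hpos v, hle1 v hv⟩
    rw [hF, Sum.elim_inl, if_pos hv]
  have FV2 : ∀ v, c v = false → F (Sum.inl v) = O + B + l v ∧ 1 ≤ l v ∧ l v ≤ b2 := by
    intro v hv
    refine ⟨?_, hpos v, hle2 v hv⟩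
    rw [hF, Sum.elim_inl, if_neg (by simp [hv])]
  have FP0 : ∀ j : Fin m, j.val = 0 → F (Sum.inr j) + i = O + A + B + 1 := by
    intro j hj
    rw [hF, Sum.elim_inr, if_pos hj]
    omega
  have FP1 : ∀ j : Fin m, j.val ≠ 0 → (j.val - 1) % 2 = 0 → F (Sum.inr j) = L (j.val - 1) ∧
      1 ≤ L (j.val - 1) ∧ L (j.val - 1) ≤ A := by
    intro j hj hj2
    have h1 := j.isLt
    refine ⟨?_, P.pos _ (by omega), ?_⟩
    · rw [hF, Sum.elim_inr, if_neg hj, if_pos hj2]
    · have := P.ev (j.val - 1) (by omega) hj2
      omega
  have FP2 : ∀ j : Fin m, j.val ≠ 0 → (j.val - 1) % 2 = 1 → F (Sum.inr j) = O + L (j.val - 1) ∧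
      1 ≤ L (j.val - 1) ∧ L (j.val - 1) ≤ B := by
    intro j hj hj2
    have h1 := j.isLt
    refine ⟨?_, P.pos _ (by omega), ?_⟩
    · rw [hF, Sum.elim_inr, if_neg hj, if_neg (by omega)]
    · have := P.od (j.val - 1) (by omega) hj2
      omega
  have kindV : ∀ v, c v = true ∨ c v = false := by
    intro v; cases c v <;> simp
  have kindP : ∀ j : Fin m, j.val = 0 ∨ (j.val ≠ 0 ∧ (j.val - 1) % 2 = 0) ∨
      (j.val ≠ 0 ∧ (j.val - 1) % 2 = 1) := by
    intro j; omega
  have hFinj : Function.Injective F := by
    rintro (u | j) (v | j') h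
    · rcases kindV u with hu | hu <;> rcases kindV v with hv | hv
      · have e1 := FV1 u hu
        have e2 := FV1 v hv
        rw [hinj u v (by rw [hu, hv]) (by omega)]
      · have e1 := FV1 u hu
        have e2 := FV2 v hv
        omega
      · have e1 := FV2 u hu
        have e2 := FV1 v hv
        omega
      · have e1 := FV2 u hu
        have e2 := FV2 v hv
        rw [hinj u v (by rw [hu, hv]) (by omega)]
    · rcases kindV u with hu | hu <;> rcases kindP j' with hj | ⟨hj, hj2⟩ | ⟨hj, hj2⟩
      · have e1 := FV1 u hu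
        have e2 := FP0 j' hj
        omega
      · have e1 := FV1 u hu
        have e2 := FP1 j' hj hj2
        omega
      · have e1 := FV1 u hu
        have e2 := FP2 j' hj hj2
        omega
      · have e1 := FV2 u hu
        have e2 := FP0 j' hj
        omega
      · have e1 := FV2 u hu
        have e2 := FP1 j' hj hj2
        omega
      · have e1 := FV2 u hu
        have e2 := FP2 j' hj hj2
        omega
    · rcases kindV v with hu | hu <;> rcases kindP j with hj | ⟨hj, hj2⟩ | ⟨hj, hj2⟩
      · have e1 := FV1 v hu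
        have e2 := FP0 j hj
        omega
      · have e1 := FV1 v hu
        have e2 := FP1 j hj hj2
        omega
      · have e1 := FV1 v hu
        have e2 := FP2 j hj hj2
        omega
      · have e1 := FV2 v hu
        have e2 := FP0 j hj
        omega
      · have e1 := FV2 v hu
        have e2 := FP1 j hj hj2
        omega
      · have e1 := FV2 v hu
        have e2 := FP2 j hj hj2
        omega
    · have l1 := j.isLt
      have l2 := j'.isLt
      have goal : j.val = j'.val → (Sum.inr j : V ⊕ Fin m) = Sum.inr j' := by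
        intro h; rw [Fin.ext h]
      apply goal
      rcases kindP j with hj | ⟨hj, hj2⟩ | ⟨hj, hj2⟩ <;>
        rcases kindP j' with hj' | ⟨hj', hj2'⟩ | ⟨hj', hj2'⟩
      · omega
      · have e1 := FP0 j hj
        have e2 := FP1 j' hj' hj2'
        omega
      · have e1 := FP0 j hj
        have e2 := FP2 j' hj' hj2'
        omega
      · have e1 := FP1 j hj hj2
        have e2 := FP0 j' hj'
        omega
      · have e1 := FP1 j hj hj2
        have e2 := FP1 j' hj' hj2'
        have := P.inj (j.val - 1) (by omega) (j'.val - 1) (by omega) (by omega) (by omega)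
        omega
      · have e1 := FP1 j hj hj2
        have e2 := FP2 j' hj' hj2'
        omega
      · have e1 := FP2 j hj hj2
        have e2 := FP0 j' hj'
        omega
      · have e1 := FP2 j hj hj2
        have e2 := FP1 j' hj' hj2'
        omega
      · have e1 := FP2 j hj hj2
        have e2 := FP2 j' hj' hj2'
        have := P.inj (j.val - 1) (by omega) (j'.val - 1) (by omega) (by omega) (by omega)
        omega
  have hFr : ∀ x, 1 ≤ F x ∧ F x ≤ Fintype.card (V ⊕ Fin m) + 1 := by
    rw [hcard]
    rintro (v | j)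
    · rcases kindV v with hv | hv
      · have e1 := FV1 v hv
        omega
      · have e1 := FV2 v hv
        omega
    · rcases kindP j with hj | ⟨hj, hj2⟩ | ⟨hj, hj2⟩
      · have e1 := FP0 j hj
        omega
      · have e1 := FP1 j hj hj2
        omega
      · have e1 := FP2 j hj hj2
        omega
  -- sums
  have sumT : ∀ u v, c u = true → c v = false →
      F (Sum.inl u) + F (Sum.inl v) = O + A + B + (l u + l v) ∧ 2 ≤ l u + l v ∧
        l u + l v ≤ a2 + b2 := by
    intro u v hu hv
    have e1 := FV1 u hu
    have e2 := FV2 v hv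
    omega
  have sumP : ∀ j j' : Fin m, j.val + 1 = j'.val →
      (j.val = 0 ∧ F (Sum.inr j) + F (Sum.inr j') = O + A + B + 1) ∨
      (1 ≤ j.val ∧ F (Sum.inr j) + F (Sum.inr j') = O + (L (j.val - 1) + L (j.val - 1 + 1)) ∧
        2 ≤ L (j.val - 1) + L (j.val - 1 + 1) ∧ L (j.val - 1) + L (j.val - 1 + 1) ≤ A + B) := by
    intro j j' hjj
    have l2 := j'.isLt
    rcases kindP j with hj | ⟨hj, hj2⟩ | ⟨hj, hj2⟩
    · left
      refine ⟨hj, ?_⟩
      have e1 := FP0 j hj
      have e2 := FP1 j' (by omega) (by omega)
      have e3 : L (j'.val - 1) = i := by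
        rw [show j'.val - 1 = 0 by omega]; exact P.start
      omega
    · right
      have e1 := FP1 j hj hj2
      have e2 := FP2 j' (by omega) (by omega)
      rw [show j'.val - 1 = j.val - 1 + 1 by omega] at e2
      omega
    · right
      have e1 := FP2 j hj hj2
      have e2 := FP1 j' (by omega) (by omega)
      rw [show j'.val - 1 = j.val - 1 + 1 by omega] at e2
      omega
  obtain ⟨σ, hσ⟩ : ∃ σ : Sym2 (V ⊕ Fin m) → ℕ, ∀ u v, σ s(u, v) = F u + F v :=
    ⟨Sym2.lift ⟨fun u v => F u + F v, fun u v => add_comm _ _⟩, fun _ _ => rfl⟩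
  have orient : ∀ e ∈ (T ⊕g SimpleGraph.pathGraph m).edgeSet,
      (∃ u v, e = s(Sum.inl u, Sum.inl v) ∧ T.Adj u v ∧ c u = true ∧ c v = false) ∨
      (∃ j j' : Fin m, e = s(Sum.inr j, Sum.inr j') ∧ j.val + 1 = j'.val) := by
    intro e he
    induction e using Sym2.inductionOn with
    | _ x y =>
    rw [SimpleGraph.mem_edgeSet] at he
    rcases x with u | j <;> rcases y with v | j'
    · left
      have hadj : T.Adj u v := by simpa using he
      have hc := hcol u v hadj
      rcases kindV u with hu | hu
      · refine ⟨u, v, rfl, hadj, hu, ?_⟩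
        rcases kindV v with hv | hv
        · rw [hu, hv] at hc; exact absurd rfl hc
        · exact hv
      · refine ⟨v, u, Sym2.eq_swap, hadj.symm, ?_, hu⟩
        rcases kindV v with hv | hv
        · exact hv
        · rw [hu, hv] at hc; exact absurd rfl hc
    · simp at he
    · simp at he
    · right
      have hadj : (SimpleGraph.pathGraph m).Adj j j' := by simpa using he
      rw [SimpleGraph.pathGraph_adj] at hadj
      rcases hadj with h | h
      · exact ⟨j, j', rfl, h⟩
      · exact ⟨j', j, Sym2.eq_swap, h⟩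
  have hσr : ∀ e ∈ (T ⊕g SimpleGraph.pathGraph m).edgeSet, O + 2 ≤ σ e ∧
      σ e ≤ O + A + B + (a2 + b2) := by
    intro e he
    rcases orient e he with ⟨u, v, rfl, h1, h2, h3⟩ | ⟨j, j', rfl, h1⟩
    · rw [hσ]
      have := sumT u v h2 h3
      omega
    · rw [hσ]
      have hV : 1 ≤ a2 + b2 := by
        rw [hab]
        have := hT.connected.nonempty
        exact Fintype.card_pos
      rcases sumP j j' h1 with h2 | h2 <;> omega
  have hσi : ∀ e ∈ (T ⊕g SimpleGraph.pathGraph m).edgeSet,
      ∀ e' ∈ (T ⊕g SimpleGraph.pathGraph m).edgeSet, σ e = σ e' → e = e' := by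
    intro e he e' he'
    rcases orient e he with ⟨u, v, rfl, h1, h2, h3⟩ | ⟨j, k, rfl, h1⟩ <;>
      rcases orient e' he' with ⟨u', v', rfl, h1', h2', h3'⟩ | ⟨j', k', rfl, h1'⟩
    · rw [hσ, hσ]
      intro h
      have e1 := sumT u v h2 h3
      have e2 := sumT u' v' h2' h3'
      obtain ⟨r1, r2⟩ := hsum u v u' v' h1 h1' h2 h2' (by omega)
      rw [r1, r2]
    · rw [hσ, hσ]
      intro h
      have e1 := sumT u v h2 h3
      rcases sumP j' k' h1' with e2 | e2 <;> omega
    · rw [hσ, hσ]
      intro h
      have e1 := sumT u' v' h2' h3'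
      rcases sumP j k h1 with e2 | e2 <;> omega
    · rw [hσ, hσ]
      intro h
      have l1 := k.isLt
      have l2 := k'.isLt
      have hjj : j.val = j'.val := by
        rcases sumP j k h1 with e1 | e1 <;> rcases sumP j' k' h1' with e2 | e2
        · omega
        · omega
        · omega
        · have := P.sinj (j.val - 1) (by omega) (j'.val - 1) (by omega) (by omega)
          omega
      have r1 : j = j' := Fin.ext hjj
      have r2 : k = k' := Fin.ext (by omega)
      rw [r1, r2]
  -- number of edges
  have hq : a2 + b2 + m ≤ Nat.card (T ⊕g SimpleGraph.pathGraph m).edgeSet + 2 := by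
    have h1 : Nat.card (T ⊕g SimpleGraph.pathGraph m).edgeSet =
        Nat.card T.edgeSet + Nat.card (SimpleGraph.pathGraph m).edgeSet := by
      rw [Nat.card_congr SimpleGraph.edgeSetSumEquiv, Nat.card_sum]
    have h2 : Nat.card T.edgeSet + 1 = Fintype.card V := by
      have := hT.card_edgeFinset
      rw [SimpleGraph.edgeFinset_card, ← Nat.card_eq_fintype_card] at this
      exact this
    have h3 : m - 1 ≤ Nat.card (SimpleGraph.pathGraph m).edgeSet := by
      have hadj : ∀ j : Fin (m - 1), (SimpleGraph.pathGraph m).Adj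
          (⟨j.val, by omega⟩ : Fin m) (⟨j.val + 1, by omega⟩ : Fin m) := by
        intro j
        rw [SimpleGraph.pathGraph_adj]
        left; rfl
      have hinj' : Function.Injective (fun j : Fin (m - 1) =>
          (⟨s((⟨j.val, by omega⟩ : Fin m), (⟨j.val + 1, by omega⟩ : Fin m)), hadj j⟩ :
            (SimpleGraph.pathGraph m).edgeSet)) := by
        intro j j' h
        have h4 := congrArg Subtype.val h
        simp only [Sym2.eq_iff, Fin.mk.injEq] at h4
        exact Fin.ext (by omega)
      have := Nat.card_le_card_of_injective _ hinj'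
      simpa using this
    omega
  refine ⟨1, le_refl 1, F, hFinj, hFr,
    fun e => a2 + b2 + m + 2 + (O + A + B + (a2 + b2)) - σ e.val, ?_, ?_,
    a2 + b2 + m + 2 + (O + A + B + (a2 + b2)), ?_⟩
  · intro e e' hee
    have r1 := hσr e.val e.2
    have r2 := hσr e'.val e'.2
    simp only at hee
    exact Subtype.ext (hσi e.val e.2 e'.val e'.2 (by omega))
  · intro e
    have r1 := hσr e.val e.2
    rw [hcard]
    simp only
    omega
  · intro e u v he
    have r1 := hσr e.val e.2
    have r2 : σ e.val = F u + F v := by rw [he, hσ]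
    simp only
    omega

/-- Let `T` be a tree with an alpha-labelling `f` (vertex labels from `0` to `|T| - 1`, threshold
`k`, all edge differences distinct). If the path has `m` vertices and one of the two colour
classes of `T`, which have `k + 1` and `|T| - k - 1` elements, has fewer than `m / 2` (rounded
down) elements, then the disjoint union of `T` and the path has super edge-magic deficiency at
most one. -/
theorem result :
    ∀ (V : Type) [Fintype V] (T : SimpleGraph V) (f : V → ℕ) (k m : ℕ),
      T.IsTree → Function.Injective f → (∀ v, f v < Fintype.card V) → k < Fintype.card V →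
      (∀ u v, T.Adj u v → (f u ≤ k ↔ k < f v)) →
      (∀ u v u' v', T.Adj u v → T.Adj u' v' → f u < f v → f u' < f v' →
        f v - f u = f v' - f u' → u = u' ∧ v = v') →
      (k + 1 < m / 2 ∨ Fintype.card V - (k + 1) < m / 2) →
      ∃ n : ℕ, n ≤ 1 ∧
        ∃ f : V ⊕ Fin m → ℕ, Function.Injective f ∧
          (∀ v, 1 ≤ f v ∧ f v ≤ Fintype.card (V ⊕ Fin m) + n) ∧
          ∃ g : (T ⊕g SimpleGraph.pathGraph m).edgeSet → ℕ, Function.Injective g ∧
            (∀ e, Fintype.card (V ⊕ Fin m) + n + 1 ≤ g e ∧
                  g e ≤ Fintype.card (V ⊕ Fin m) + n +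
                    Nat.card (T ⊕g SimpleGraph.pathGraph m).edgeSet) ∧
            ∃ k : ℕ, ∀ (e : (T ⊕g SimpleGraph.pathGraph m).edgeSet) (u v : V ⊕ Fin m),
              e.val = s(u, v) → f u + f v + g e = k := by
  intro V _ T f k m hT hf hfr hk halpha hdiff hm
  classical
  have hedge : ∀ u v, T.Adj u v → (f u ≤ k ∧ k < f v) ∨ (f v ≤ k ∧ k < f u) := by
    intro u v h
    have h1 := halpha u v h
    by_cases h2 : f u ≤ k
    · exact Or.inl ⟨h2, h1.mp h2⟩
    · right
      have h3 := halpha v u h.symm
      exact ⟨h3.mpr (by omega), by omega⟩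
  rcases hm with hm | hm
  · refine main T hT (fun v => decide (k < f v)) (fun v => if k < f v then f v - k else k + 1 - f v)
      (Fintype.card V - (k + 1)) (k + 1) m (by omega) ?_ ?_ ?_ ?_ ?_ ?_ hm
    · intro v; split_ifs <;> omega
    · intro v hv
      have := hfr v
      have hv' : k < f v := by simpa using hv
      simp only [hv', if_true]; omega
    · intro v hv
      have hv' : ¬ (k < f v) := by simpa using hv
      simp only [hv', if_false]; omega
    · intro u v huv h
      apply hf
      by_cases h1 : k < f u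
      · have h2 : k < f v := by simpa [h1] using huv
        simp only [h1, h2, if_true] at h
        omega
      · have h2 : ¬ (k < f v) := by simpa [h1] using huv
        simp only [h1, h2, if_false] at h
        omega
    · intro u v huv
      rcases hedge u v huv with h1 | h1
      · have h2 : ¬ (k < f u) := by omega
        simp [h2, h1.2]
      · have h2 : ¬ (k < f v) := by omega
        simp [h2, h1.2]
    · intro u v u' v' huv huv' hu hu' h
      have hu1 : k < f u := by simpa using hu
      have hu1' : k < f u' := by simpa using hu'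
      have e1 : f v ≤ k := by rcases hedge u v huv with h1 | h1 <;> omega
      have e2 : f v' ≤ k := by rcases hedge u' v' huv' with h1 | h1 <;> omega
      have e3 : ¬ (k < f v) := by omega
      have e4 : ¬ (k < f v') := by omega
      simp only [hu1, hu1', e3, e4, if_true, if_false] at h
      have := hdiff v u v' u' huv.symm huv'.symm (by omega) (by omega) (by omega)
      exact ⟨this.2, this.1⟩
  · refine main T hT (fun v => decide (f v ≤ k)) (fun v => if f v ≤ k then k + 1 - f v else f v - k)
      (k + 1) (Fintype.card V - (k + 1)) m (by omega) ?_ ?_ ?_ ?_ ?_ ?_ hm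
    · intro v; split_ifs <;> omega
    · intro v hv
      have hv' : f v ≤ k := by simpa using hv
      simp only [hv', if_true]; omega
    · intro v hv
      have := hfr v
      have hv' : ¬ (f v ≤ k) := by simpa using hv
      simp only [hv', if_false]; omega
    · intro u v huv h
      apply hf
      by_cases h1 : f u ≤ k
      · have h2 : f v ≤ k := by simpa [h1] using huv
        simp only [h1, h2, if_true] at h
        omega
      · have h2 : ¬ (f v ≤ k) := by simpa [h1] using huv
        simp only [h1, h2, if_false] at h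
        omega
    · intro u v huv
      rcases hedge u v huv with h1 | h1
      · have h2 : ¬ (f v ≤ k) := by omega
        simp [h2, h1.1]
      · have h2 : ¬ (f u ≤ k) := by omega
        simp [h2, h1.1]
    · intro u v u' v' huv huv' hu hu' h
      have hu1 : f u ≤ k := by simpa using hu
      have hu1' : f u' ≤ k := by simpa using hu'
      have e1 : k < f v := by rcases hedge u v huv with h1 | h1 <;> omega
      have e2 : k < f v' := by rcases hedge u' v' huv' with h1 | h1 <;> omega
      have e3 : ¬ (f v ≤ k) := by omega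
      have e4 : ¬ (f v' ≤ k) := by omega
      simp only [hu1, hu1', e3, e4, if_true, if_false] at h
      exact hdiff u v u' v' huv huv' (by omega) (by omega) (by omega)

end Pool.Agent.Results.MP_6afe48_co.PathAndAlphaTree
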