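import Mathlib
import Pool.Agent.SEMD.Trees

/-!
An arbitrary forest with two components and an arbitrary tree, joined by a long path between
arbitrary vertices: the resulting forest with two components is super edge-magic.
-/

set_option autoImplicit false
set_option linter.unusedSectionVars false

namespace Pool.Agent.Results.MP_6afe48_co.SubdividedForests

open SEMD

/-- A super edge-magic labelling exists: the `p` vertices have different labels from `1` to `p`,
the `q` edges have different labels from `p + 1` to `p + q`, and the sum of the labels of an edge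
and of its two ends is the same for all edges. -/
def IsSuperEdgeMagic {W : Type} [Fintype W] (G : SimpleGraph W) : Prop :=
  ∃ f : W → ℕ, Function.Injective f ∧ (∀ v, 1 ≤ f v ∧ f v ≤ Fintype.card W) ∧
    ∃ g : G.edgeSet → ℕ, Function.Injective g ∧
      (∀ e, Fintype.card W + 1 ≤ g e ∧ g e ≤ Fintype.card W + Nat.card G.edgeSet) ∧
      ∃ k : ℕ, ∀ (e : G.edgeSet) (u v : W), e.val = s(u, v) → f u + f v + g e = k

/-- The disjoint union of `F`, `R` and a path on `n + 1` vertices, together with an edge between the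
vertex `t` of `F` and the first vertex of the path and an edge between the vertex `r` of `R` and the
last vertex of the path. -/
def joinByPath {V C : Type} (F : SimpleGraph V) (R : SimpleGraph C) (t : V) (r : C) (n : ℕ) :
    SimpleGraph ((V ⊕ C) ⊕ Fin (n + 1)) :=
  (((F ⊕g R) ⊕g SimpleGraph.pathGraph (n + 1)) ⊔
    SimpleGraph.edge (Sum.inl (Sum.inl t)) (Sum.inr 0)) ⊔
    SimpleGraph.edge (Sum.inl (Sum.inr r)) (Sum.inr (Fin.last n))

/-- A forest with two components is the disjoint union of two trees. -/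
lemma two_trees {V : Type} [Fintype V] {F : SimpleGraph V} (hF : F.IsAcyclic)
    (h2 : Nat.card F.ConnectedComponent = 2) :
    ∃ (A B : Type) (_ : Fintype A) (_ : Fintype B) (S : SimpleGraph A) (T : SimpleGraph B),
      S.IsTree ∧ T.IsTree ∧ Nonempty (F ≃g (S ⊕g T)) := by
  classical
  obtain ⟨C1, C2, hne, huniv⟩ := Nat.card_eq_two_iff.mp h2
  have hmem : ∀ v, v ∉ C1 → v ∈ C2 := by
    intro v hv
    have h3 : F.connectedComponentMk v ∈ ({C1, C2} : Set F.ConnectedComponent) := by
      rw [huniv]; exact Set.mem_univ _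
    rcases h3 with h3 | h3
    · exact absurd (show v ∈ C1 from h3) hv
    · exact h3
  have hdis : ∀ v, v ∈ C2 → v ∉ C1 := by
    intro v hv hv'
    have h3 : F.connectedComponentMk v = C2 := hv
    have h4 : F.connectedComponentMk v = C1 := hv'
    exact hne (h4.symm.trans h3)
  refine ⟨C1, C2, Fintype.ofFinite _, Fintype.ofFinite _, C1.toSimpleGraph, C2.toSimpleGraph,
    hF.isTree_connectedComponent C1, hF.isTree_connectedComponent C2, ⟨?_⟩⟩
  refine ⟨⟨fun v => if h : v ∈ C1 then Sum.inl ⟨v, h⟩ else Sum.inr ⟨v, hmem v h⟩,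
    Sum.elim Subtype.val Subtype.val, ?_, ?_⟩, ?_⟩
  · intro v
    by_cases h : v ∈ C1
    · simp [h]
    · simp [h]
  · rintro (⟨v, hv⟩ | ⟨v, hv⟩)
    · simp [hv]
    · simp [hdis v hv]
  · intro u v
    simp only [Equiv.coe_fn_mk]
    by_cases hu : u ∈ C1
    · by_cases hv : v ∈ C1
      · rw [dif_pos hu, dif_pos hv]
        rw [SimpleGraph.sum_adj_inl]
        exact C1.toSimpleGraph_adj hu hv
      · rw [dif_pos hu, dif_neg hv]
        constructor
        · intro h; simp at h
        · intro h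
          exact absurd (C1.mem_supp_of_adj_mem_supp hu h) hv
    · by_cases hv : v ∈ C1
      · rw [dif_neg hu, dif_pos hv]
        constructor
        · intro h; simp at h
        · intro h
          exact absurd (C1.mem_supp_of_adj_mem_supp hv h.symm) hu
      · rw [dif_neg hu, dif_neg hv]
        rw [SimpleGraph.sum_adj_inr]
        exact C2.toSimpleGraph_adj (hmem u hu) (hmem v hv)

lemma sem_of_structure {V C : Type} [Fintype V] [Fintype C] {F : SimpleGraph V}
    {R : SimpleGraph C} {t : V} {r : C} {n : ℕ} {c : (V ⊕ C) ⊕ Fin (n + 1) → Bool}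
    {l : (V ⊕ C) ⊕ Fin (n + 1) → ℕ} {a b : ℕ} (B : Blk (join F R t r n) c l a b)
    (hlt : ∀ x z, (join F R t r n).Adj x z → l x + l z < a + b)
    (hF : Fintype.card V ≤ Nat.card F.edgeSet + 2) (hR : R.IsTree) :
    IsSuperEdgeMagic (joinByPath F R t r n) :=
  sem_of_blk B hlt (join_card F R t r n 2 hF hR)

/-- The case of a tree `R` with one vertex. -/
lemma single_case {V C : Type} [Fintype V] [Fintype C] {F : SimpleGraph V} {R : SimpleGraph C}
    (t : V) (r : C) (hF : Fintype.card V ≤ Nat.card F.edgeSet + 2) (hR : R.IsTree)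
    (hC : Fintype.card C = 1) {X : ℕ} (hX : Fintype.card V ≤ X) (hst : St 2 X F) (n : ℕ)
    (hn : 50 * X ≤ n) : IsSuperEdgeMagic (joinByPath F R t r n) := by
  obtain ⟨w, hw, h1⟩ := hst t
  have B4 := blk_single R hC
  have hV : 1 ≤ Fintype.card V := by
    have : Nonempty V := ⟨t⟩
    exact Fintype.card_pos
  have hwle : w ≤ Fintype.card V + (X + 1) := by
    obtain ⟨c, l, a, b, k1, _, _, k4⟩ := h1 X le_rfl
    have := le_card k1 (Sum.inr (Fin.last X))
    rw [k4, Fintype.card_sum, Fintype.card_fin] at this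
    exact this
  obtain ⟨M, hM⟩ : ∃ M, M = w - 1 := ⟨_, rfl⟩
  obtain ⟨n1, hn1⟩ : ∃ n1, n1 = n - 2 * M := ⟨_, rfl⟩
  have hnn : n = n1 + 2 * M := by omega
  obtain ⟨c', l', a', b', k1, k2, k3, k4⟩ := h1 n1 (by omega)
  have fin : ∀ (c5 : C → Bool) (a5 b5 : ℕ) (B5 : Blk R c5 (fun _ => 1) a5 b5) (q : ℕ)
      (hq : c' (Sum.inr (Fin.last n1)) = decide (q % 2 = 0)) (h4Q : c5 r = decide (q % 2 = 1))
      (hk : (q % 2 = 1 ∧ M + 1 + a5 = l' (Sum.inr (Fin.last n1)) + 1) ∨
        (q % 2 = 0 ∧ M + 1 + b5 = l' (Sum.inr (Fin.last n1)) + 1)),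
      IsSuperEdgeMagic (joinByPath F R t r n) := by
    intro c5 a5 b5 B5 q hq h4Q hk
    obtain ⟨cls', lab', g1, g2, g3, g4, g5⟩ := glue_path k1 k2 B5 M q (by omega) (by omega) hq
      h4Q hk
    rw [hnn]
    exact sem_of_structure g1 g2 hF hR
  cases hcl : c' (Sum.inr (Fin.last n1))
  · exact fin _ 1 0 B4 1 (by rw [hcl]; rfl) rfl (Or.inl ⟨rfl, by rw [k4]; omega⟩)
  · exact fin _ 0 1 B4.swap 0 (by rw [hcl]; rfl) rfl (Or.inr ⟨rfl, by rw [k4]; omega⟩)

/-- The case of a tree `R` with at least two vertices. -/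
lemma large_case {V C : Type} [Fintype V] [Fintype C] {F : SimpleGraph V} {R : SimpleGraph C}
    (t : V) (r : C) (hF : Fintype.card V ≤ Nat.card F.edgeSet + 2) (hR : R.IsTree) (w0 : ℕ)
    (hw0 : Tun w0 R r) {X : ℕ} (hX : Fintype.card V ≤ X) (hst : St w0 X F) (n : ℕ)
    (hn : 2500 * X ≤ n) : IsSuperEdgeMagic (joinByPath F R t r n) := by
  obtain ⟨w, hw, h1⟩ := hst t
  have hV : 1 ≤ Fintype.card V := by
    have : Nonempty V := ⟨t⟩
    exact Fintype.card_pos
  have hwle : w ≤ Fintype.card V + (X + 1) := by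
    obtain ⟨c, l, a, b, k1, _, _, k4⟩ := h1 X le_rfl
    have := le_card k1 (Sum.inr (Fin.last X))
    rw [k4, Fintype.card_sum, Fintype.card_fin] at this
    exact this
  obtain ⟨n2, hn2⟩ : ∃ n2, n2 = 50 * w := ⟨_, rfl⟩
  obtain ⟨c2, l2, a2, b2, B2, hl2⟩ := hw0 w hw n2 (by omega)
  obtain ⟨n1, hn1⟩ : ∃ n1, n = n1 + 1 + n2 := ⟨n - n2 - 1, by omega⟩
  obtain ⟨c1, l1, a1, b1, B1, hlt, _, hl1⟩ := h1 n1 (by omega)
  obtain ⟨e, g1, g2⟩ := reindex3 (F := F) (R := R) t r n1 n2 n hn1
  have hab := B1.card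
  rw [Fintype.card_sum, Fintype.card_fin] at hab
  have fin : ∀ (c3 : C ⊕ Fin (n2 + 1) → Bool) (a3 b3 : ℕ)
      (_ : Blk (attach R r n2) c3 l2 a3 b3)
      (_ : c1 (Sum.inr (Fin.last n1)) ≠ c3 (Sum.inr (Fin.last n2))),
      IsSuperEdgeMagic (joinByPath F R t r n) := by
    intro c3 a3 b3 B3 hne
    have B4 := B3.mirror
    have hs : l1 (Sum.inr (Fin.last n1)) +
        (if c1 (Sum.inr (Fin.last n1)) = true then a3 else b3) +
        (if c3 (Sum.inr (Fin.last n2)) = true then a3 + 1 - l2 (Sum.inr (Fin.last n2))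
          else b3 + 1 - l2 (Sum.inr (Fin.last n2))) = a3 + b3 + 1 := by
      rw [hl1, hl2]
      cases hc1 : c1 (Sum.inr (Fin.last n1))
      · have hc3 : c3 (Sum.inr (Fin.last n2)) = true := by
          cases h : c3 (Sum.inr (Fin.last n2))
          · exact absurd (hc1.trans h.symm) hne
          · rfl
        have := B3.le1 _ hc3
        rw [hc3, if_pos rfl, if_neg (by decide)]
        omega
      · have hc3 : c3 (Sum.inr (Fin.last n2)) = false := by
          cases h : c3 (Sum.inr (Fin.last n2))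
          · rfl
          · exact absurd (hc1.trans h.symm) hne
        have := B3.le2 _ hc3
        rw [hc3, if_pos rfl, if_neg (by decide)]
        omega
    obtain ⟨c, l, B, hlt'⟩ := stack B1 B4 (Sum.inr (Fin.last n1)) (Sum.inr (Fin.last n2)) hne hs
      hlt (by omega)
    have hcard : Fintype.card ((V ⊕ C) ⊕ Fin (n + 1)) =
        Fintype.card ((V ⊕ Fin (n1 + 1)) ⊕ (C ⊕ Fin (n2 + 1))) := by
      simp only [Fintype.card_sum, Fintype.card_fin]
      omega
    exact sem_of_structure (B.transfer e g1 hcard g2) (fun x z hxz => hlt' _ _ (g2 x z hxz)) hF hR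
  by_cases hcl : c1 (Sum.inr (Fin.last n1)) = c2 (Sum.inr (Fin.last n2))
  · exact fin _ b2 a2 B2.swap (by rw [hcl]; cases c2 (Sum.inr (Fin.last n2)) <;> simp)
  · exact fin c2 a2 b2 B2 hcl

/-- Let `F` be any forest with exactly two components, `t` any vertex of `F`, `R` any tree and `r`
any vertex of `R`. If `50 ^ (|F| + |R| + 2) ≤ n`, then the forest with two components obtained from
`F` and `R` by joining `t` and `r` by a path with `n + 1` inner vertices is super edge-magic. -/
theorem result :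
    ∀ (V C : Type) [Fintype V] [Fintype C] (F : SimpleGraph V) (R : SimpleGraph C) (t : V) (r : C)
      (n : ℕ), F.IsAcyclic → Nat.card F.ConnectedComponent = 2 → R.IsTree →
      50 ^ (Fintype.card V + Fintype.card C + 2) ≤ n →
      IsSuperEdgeMagic (joinByPath F R t r n) := by
  intro V C _ _ F R t r n hF h2 hR hn
  obtain ⟨A, B, iA, iB, S, T, hS, hT, ⟨φ⟩⟩ := two_trees hF h2
  have hcV : Fintype.card V = Fintype.card (A ⊕ B) := Fintype.card_congr φ.toEquiv
  have hcV' : Fintype.card V = Fintype.card A + Fintype.card B := by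
    rw [hcV, Fintype.card_sum]
  have hadj : ∀ x y, F.Adj x y → (S ⊕g T).Adj (φ x) (φ y) := fun x y h => φ.map_rel_iff.mpr h
  have hst : ∀ M, 2 ≤ M → St M (M * 50 ^ Fintype.card V) F := fun M hM =>
    (st_trees M hM _ A B S T hS hT hcV'.symm).transfer φ φ.injective hcV hadj
  have hedge : Fintype.card V ≤ Nat.card F.edgeSet + 2 := by
    have h3 : Nat.card F.edgeSet = Nat.card (S ⊕g T).edgeSet := Nat.card_congr φ.mapEdgeSet
    rw [h3, hcV, card_sum, Fintype.card_sum]
    have r1 := card_tree hS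
    have r2 := card_tree hT
    omega
  have hlt : Fintype.card V < 50 ^ Fintype.card V := Nat.lt_pow_self (by norm_num)
  by_cases hC : Fintype.card C = 1
  · refine single_case t r hedge hR hC (X := 2 * 50 ^ Fintype.card V) (by omega) (hst 2 le_rfl) n ?_
    refine le_trans ?_ hn
    rw [hC, show Fintype.card V + 1 + 2 = Fintype.card V + 3 by omega, pow_add]
    omega
  · have hC1 : 1 ≤ Fintype.card C := by
      have : Nonempty C := ⟨r⟩
      exact Fintype.card_pos
    have hM : 2 ≤ 50 ^ Fintype.card C := by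
      calc 2 ≤ 50 ^ 1 := by norm_num
        _ ≤ 50 ^ Fintype.card C := Nat.pow_le_pow_right (by norm_num) hC1
    refine large_case t r hedge hR _ ((lin_trees _ C R hR rfl r).2 (by omega))
      (X := 50 ^ Fintype.card C * 50 ^ Fintype.card V) ?_ (hst _ hM) n ?_
    · calc Fintype.card V ≤ 50 ^ Fintype.card V := hlt.le
        _ ≤ 50 ^ Fintype.card C * 50 ^ Fintype.card V :=
          Nat.le_mul_of_pos_left _ (by positivity)
    · refine le_trans (le_of_eq ?_) hn
      rw [pow_add, pow_add]
      ring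

end Pool.Agent.Results.MP_6afe48_co.SubdividedForests
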