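import Pool.Agent.Helper1.SEM.Main2
import Pool.Agent.Helper1.SEM.Hub

set_option autoImplicit false

/-!
# Forests with two components, almost all of whose vertices are pendant at three vertices
-/

namespace Pool.Agent.Results.MP_6afe48_co.ThreeHubs

open Pool.Agent.Helper1.SEM

/-- The graph `G ∪ n K₁` is super edge-magic: the vertices of `G` get distinct labels in
`1, …, p + n` (the others are the labels of the isolated vertices), its edges get the labels
`p + n + 1, …, p + n + q`, all sums `f(u) + f(uv) + f(v)` are equal. -/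
def SuperEdgeMagic {V : Type} [Fintype V] (G : SimpleGraph V) (n : ℕ) : Prop :=
  ∃ f : V → ℕ, Function.Injective f ∧
    (∀ v, 1 ≤ f v ∧ f v ≤ Fintype.card V + n) ∧
    ∃ g : G.edgeSet → ℕ, Function.Injective g ∧
      (∀ e, Fintype.card V + n + 1 ≤ g e ∧
            g e ≤ Fintype.card V + n + Nat.card G.edgeSet) ∧
      ∃ k : ℕ, ∀ (e : G.edgeSet) (u v : V),
        e.val = s(u, v) → f u + f v + g e = k

/-- The number of vertices whose only neighbour is `c` (the pendant vertices at `c`). -/
noncomputable def pendants {V : Type} (G : SimpleGraph V) (c : V) : ℕ :=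
  {x | G.neighborSet x = {c}}.ncard

/-- The number of vertices different from `a`, `b`, `v` with at least two neighbours. -/
noncomputable def inner {V : Type} (G : SimpleGraph V) (a b v : V) : ℕ :=
  {x | x ≠ a ∧ x ≠ b ∧ x ≠ v ∧ (G.neighborSet x).Nontrivial}.ncard

/-- The number of vertices different from `a`, `b`, `v` with exactly one neighbour, this neighbour
being different from `a`, `b`, `v`. -/
noncomputable def otherLeaves {V : Type} (G : SimpleGraph V) (a b v : V) : ℕ :=
  {x | x ≠ a ∧ x ≠ b ∧ x ≠ v ∧ ∃ u, u ≠ a ∧ u ≠ b ∧ u ≠ v ∧ G.neighborSet x = {u}}.ncard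


theorem reach_or {V : Type} {G : SimpleGraph V} (h2 : Nat.card G.ConnectedComponent = 2)
    {c v : V} (hcv : ¬ G.Reachable c v) (x : V) : G.Reachable c x ∨ G.Reachable v x := by
  classical
  by_contra hcon
  rw [not_or] at hcon
  have : Finite G.ConnectedComponent := Nat.finite_of_card_ne_zero (by omega)
  have h3 : ({G.connectedComponentMk c, G.connectedComponentMk v, G.connectedComponentMk x} :
      Finset G.ConnectedComponent).card = 3 := by
    rw [Finset.card_eq_three]
    refine ⟨_, _, _, ?_, ?_, ?_, rfl⟩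
    · exact fun e => hcv (SimpleGraph.ConnectedComponent.exact e)
    · exact fun e => hcon.1 (SimpleGraph.ConnectedComponent.exact e)
    · exact fun e => hcon.2 (SimpleGraph.ConnectedComponent.exact e)
  have : Fintype G.ConnectedComponent := Fintype.ofFinite _
  have h4 := Finset.card_le_univ ({G.connectedComponentMk c, G.connectedComponentMk v,
    G.connectedComponentMk x} : Finset G.ConnectedComponent)
  rw [Nat.card_eq_fintype_card] at h2
  omega

theorem fib_lt (h : ℕ) : Nat.fib (h + 4) + 1 ≤ Nat.fib (h + 6) ∧ Nat.fib (h + 3) ≤ Nat.fib (h + 5) := by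
  have h1 : Nat.fib (h + 6) = Nat.fib (h + 4) + Nat.fib (h + 5) := Nat.fib_add_two
  have h2 : 0 < Nat.fib (h + 5) := Nat.fib_pos.2 (by omega)
  exact ⟨by omega, Nat.fib_mono (by omega)⟩

/-- If all vertices except `c`, `v`, `u` which have only one neighbour are counted in the same way,
`Hub.hub` applies. -/
theorem of_hub {V : Type} [Fintype V] (G : SimpleGraph V) (hG : G.IsAcyclic)
    (h2 : Nat.card G.ConnectedComponent = 2) {c v : V} {h l : ℕ} (hcv : ¬ G.Reachable c v)
    (e1 : Hub.inner G c v = h) (e2 : Hub.otherLeaves G c v = l)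
    (hm : Nat.fib (h + 6) + Nat.fib (h + 5) * l ≤ pendants G c + h + l + 3) :
    SuperEdgeMagic G 1 := by
  refine Hub.hub V G hG h2 c v hcv (Or.inl ?_)
  rw [e1, e2]
  have h3 := fib_lt h
  have h4 : Nat.fib (h + 3) * l ≤ Nat.fib (h + 5) * l := Nat.mul_le_mul_right _ h3.2
  have h5 : Hub.pendants G c = pendants G c := rfl
  omega

theorem key {V : Type} [Fintype V] (G : SimpleGraph V) (hG : G.IsAcyclic)
    (h2 : Nat.card G.ConnectedComponent = 2) (c v u : V) (hcv : ¬ G.Reachable c v)
    (hu : G.Adj c u ∨ G.Adj v u)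
    (hm : Nat.fib (inner G c v u + 6) + Nat.fib (inner G c v u + 5) * otherLeaves G c v u ≤
        pendants G c + inner G c v u + otherLeaves G c v u + 3) :
    SuperEdgeMagic G 1 := by
  classical
  have hne : c ≠ v := fun e => hcv (e ▸ SimpleGraph.Reachable.refl c)
  have hall : ∀ x, G.Reachable c x ∨ G.Reachable v x := reach_or h2 hcv
  obtain ⟨π, d, hπ, hedge⟩ := exists_parent G hG hcv hall
  have huc : u ≠ c := by
    rintro rfl
    rcases hu with hu | hu
    · exact hu.ne rfl
    · exact hcv hu.symm.reachable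
  have huv : u ≠ v := by
    rintro rfl
    rcases hu with hu | hu
    · exact hcv hu.reachable
    · exact hu.ne rfl
  have hπu : π u = c ∨ π u = v := by
    rcases hu with hu | hu
    · rcases hedge _ _ hu with h | h
      · exact absurd rfl h.1
      · exact Or.inl h.2.2.symm
    · rcases hedge _ _ hu with h | h
      · exact absurd rfl h.2.1
      · exact Or.inr h.2.2.symm
  -- neighbours
  have hnb : ∀ x, x ≠ c → x ≠ v → ¬ HasChild c v π x → G.neighborSet x = {π x} := by
    intro x hxc hxv hI
    ext z
    rw [SimpleGraph.mem_neighborSet, Set.mem_singleton_iff]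
    constructor
    · intro hz
      rcases hedge x z hz with h | h
      · exact h.2.2
      · exact absurd ⟨z, h.1, h.2.1, h.2.2.symm⟩ hI
    · rintro rfl
      exact (hπ x hxc hxv).2
  have hnb2 : ∀ x, x ≠ c → x ≠ v → HasChild c v π x → (G.neighborSet x).Nontrivial := by
    rintro x hxc hxv ⟨z, hzc, hzv, hz⟩
    have h3 := hπ z hzc hzv
    have h4 := hπ x hxc hxv
    rw [hz] at h3
    refine ⟨π x, h4.2, z, h3.2.symm, fun e => ?_⟩
    have h5 := h4.1
    rw [e] at h5
    omega
  have hcN : ∀ x, G.neighborSet x = {c} → x ≠ c ∧ x ≠ v := by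
    intro x hx
    have h3 : G.Adj x c := by
      rw [← SimpleGraph.mem_neighborSet, hx]; exact rfl
    exact ⟨h3.ne, fun e => hcv (e ▸ h3.symm.reachable)⟩
  have hnt : ∀ {x z : V}, G.neighborSet x = {z} → ¬ (G.neighborSet x).Nontrivial := by
    intro x z h h'
    rw [h] at h'
    exact Set.not_nontrivial_singleton h'
  by_cases huI : HasChild c v π u
  swap
  · -- `u` is a leaf
    have hNu := hnb u huc huv huI
    refine of_hub G hG h2 hcv ?_ ?_ hm
    · unfold Hub.inner inner
      congr 1
      ext x
      rw [Set.mem_ofPred_eq, Set.mem_ofPred_eq]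
      constructor
      · rintro ⟨h3, h4, h5⟩
        exact ⟨h3, h4, fun e => hnt hNu (e ▸ h5), h5⟩
      · rintro ⟨h3, h4, h5, h6⟩
        exact ⟨h3, h4, h6⟩
    · unfold Hub.otherLeaves otherLeaves
      congr 1
      ext x
      rw [Set.mem_ofPred_eq, Set.mem_ofPred_eq]
      constructor
      · rintro ⟨h3, h4, w, h5, h6, h7⟩
        refine ⟨h3, h4, ?_, w, h5, h6, ?_, h7⟩
        · rintro rfl
          rw [hNu] at h7
          have h8 := Set.singleton_injective h7
          rcases hπu with h9 | h9
          · exact h5 (h8.symm.trans h9)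
          · exact h6 (h8.symm.trans h9)
        · rintro rfl
          have h8 : x ∈ G.neighborSet w := by
            rw [SimpleGraph.mem_neighborSet]
            have : w ∈ G.neighborSet x := by rw [h7]; exact rfl
            exact ((SimpleGraph.mem_neighborSet _ _ _).1 this).symm
          rw [hNu] at h8
          have h9 : x = π w := h8
          rcases hπu with h10 | h10
          · exact h3 (h9.trans h10)
          · exact h4 (h9.trans h10)
      · rintro ⟨h3, h4, h5, w, h6, h7, h8, h9⟩
        exact ⟨h3, h4, w, h6, h7, h9⟩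
  by_cases hcase : π u = c ∨ (π u = v ∧ ∃ w, w ≠ c ∧ w ≠ v ∧ w ≠ u ∧ π w = v)
  swap
  · -- `v` is a leaf at `u`
    rw [not_or] at hcase
    have hπv : π u = v := hπu.resolve_left hcase.1
    have hno : ∀ w, w ≠ c → w ≠ v → w ≠ u → π w ≠ v := fun w h3 h4 h5 h6 =>
      hcase.2 ⟨hπv, w, h3, h4, h5, h6⟩
    have hvu : G.Adj v u := hπv ▸ (hπ u huc huv).2.symm
    have hNv : G.neighborSet v = {u} := by
      ext z
      rw [SimpleGraph.mem_neighborSet, Set.mem_singleton_iff]
      constructor
      · intro hz
        rcases hedge v z hz with h | h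
        · exact absurd rfl h.2.1
        · by_contra hzu
          exact hno z h.1 h.2.1 hzu h.2.2.symm
      · rintro rfl; exact hvu
    have hcu : ¬ G.Reachable c u := fun h => hcv (h.trans hvu.symm.reachable)
    refine of_hub G hG h2 hcu ?_ ?_ hm
    · unfold Hub.inner inner
      congr 1
      ext x
      rw [Set.mem_ofPred_eq, Set.mem_ofPred_eq]
      constructor
      · rintro ⟨h3, h4, h5⟩
        exact ⟨h3, fun e => hnt hNv (e ▸ h5), h4, h5⟩
      · rintro ⟨h3, h4, h5, h6⟩
        exact ⟨h3, h5, h6⟩
    · unfold Hub.otherLeaves otherLeaves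
      congr 1
      ext x
      rw [Set.mem_ofPred_eq, Set.mem_ofPred_eq]
      constructor
      · rintro ⟨h3, h4, w, h5, h6, h7⟩
        refine ⟨h3, ?_, h4, w, h5, ?_, h6, h7⟩
        · rintro rfl
          rw [hNv] at h7
          exact h6 (Set.singleton_injective h7).symm
        · rintro rfl
          have h8 : x ∈ G.neighborSet w := by
            rw [SimpleGraph.mem_neighborSet]
            have : w ∈ G.neighborSet x := by rw [h7]; exact rfl
            exact ((SimpleGraph.mem_neighborSet _ _ _).1 this).symm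
          rw [hNv] at h8
          exact h4 h8
      · rintro ⟨h3, h4, h5, w, h6, h7, h8, h9⟩
        exact ⟨h3, h5, w, h6, h8, h9⟩
  -- the main case
  let H : Finset V := Finset.univ.filter (fun x => x ≠ c ∧ x ≠ v ∧ x ≠ u ∧ HasChild c v π x)
  let A : Finset V := Finset.univ.filter (fun x => x ≠ c ∧ x ≠ v ∧ ¬ HasChild c v π x ∧
    π x ≠ c ∧ π x ≠ v ∧ π x ≠ u)
  let L : Finset V := Finset.univ.filter (fun x => x ≠ c ∧ x ≠ v ∧ ¬ HasChild c v π x ∧ π x = c)
  have hH : ∀ x, x ∈ H ↔ x ≠ c ∧ x ≠ v ∧ x ≠ u ∧ HasChild c v π x := fun x => by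
    simp only [H, Finset.mem_filter, Finset.mem_univ, true_and]
  have hA : ∀ x, x ∈ A ↔ x ≠ c ∧ x ≠ v ∧ ¬ HasChild c v π x ∧ π x ≠ c ∧ π x ≠ v ∧ π x ≠ u :=
    fun x => by simp only [A, Finset.mem_filter, Finset.mem_univ, true_and]
  have hL : ∀ x, x ∈ L ↔ x ≠ c ∧ x ≠ v ∧ ¬ HasChild c v π x ∧ π x = c := fun x => by
    simp only [L, Finset.mem_filter, Finset.mem_univ, true_and]
  have eH : inner G c v u = H.card := by
    rw [← Set.ncard_coe_finset]
    unfold inner
    congr 1
    ext x
    rw [Set.mem_ofPred_eq, Finset.mem_coe, hH]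
    constructor
    · rintro ⟨hxc, hxv, hxu, hN⟩
      refine ⟨hxc, hxv, hxu, ?_⟩
      by_contra hI
      exact hnt (hnb x hxc hxv hI) hN
    · rintro ⟨hxc, hxv, hxu, hI⟩
      exact ⟨hxc, hxv, hxu, hnb2 x hxc hxv hI⟩
  have eA : otherLeaves G c v u = A.card := by
    rw [← Set.ncard_coe_finset]
    unfold otherLeaves
    congr 1
    ext x
    rw [Set.mem_ofPred_eq, Finset.mem_coe, hA]
    constructor
    · rintro ⟨hxc, hxv, hxu, w, hwc, hwv, hwu, hN⟩
      have hI : ¬ HasChild c v π x := fun hI => hnt hN (hnb2 x hxc hxv hI)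
      have h3 : π x = w := by
        rw [hnb x hxc hxv hI] at hN
        exact Set.singleton_injective hN
      exact ⟨hxc, hxv, hI, h3 ▸ hwc, h3 ▸ hwv, h3 ▸ hwu⟩
    · rintro ⟨hxc, hxv, hI, h3, h4, h5⟩
      exact ⟨hxc, hxv, fun e => hI (e ▸ huI), π x, h3, h4, h5, hnb x hxc hxv hI⟩
  have eL : pendants G c = L.card := by
    rw [← Set.ncard_coe_finset]
    unfold pendants
    congr 1
    ext x
    rw [Set.mem_ofPred_eq, Finset.mem_coe, hL]
    constructor
    · intro hN
      obtain ⟨hxc, hxv⟩ := hcN x hN
      have hI : ¬ HasChild c v π x := fun hI => hnt hN (hnb2 x hxc hxv hI)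
      have h3 : π x = c := by
        rw [hnb x hxc hxv hI] at hN
        exact Set.singleton_injective hN
      exact ⟨hxc, hxv, hI, h3⟩
    · rintro ⟨hxc, hxv, hI, h3⟩
      rw [hnb x hxc hxv hI, h3]
  rw [eH, eA, eL] at hm
  obtain ⟨t, y, hy1, hy2, hy3, hy4⟩ := exists_labelling' hne
    (fun x hxc hxv => (hπ x hxc hxv).1) huc huv huI hcase hH hA hL hm
  exact sem_of_labelling' G hne hπ hedge hy1 hy2 hy3 hy4

theorem inner_perm1 {V : Type} (G : SimpleGraph V) (a b v : V) : inner G a v b = inner G a b v := by
  unfold inner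
  congr 1
  ext x
  rw [Set.mem_ofPred_eq, Set.mem_ofPred_eq]
  tauto

theorem inner_perm2 {V : Type} (G : SimpleGraph V) (a b v : V) : inner G b a v = inner G a b v := by
  unfold inner
  congr 1
  ext x
  rw [Set.mem_ofPred_eq, Set.mem_ofPred_eq]
  tauto

theorem other_perm1 {V : Type} (G : SimpleGraph V) (a b v : V) :
    otherLeaves G a v b = otherLeaves G a b v := by
  unfold otherLeaves
  congr 1
  ext x
  rw [Set.mem_ofPred_eq, Set.mem_ofPred_eq]
  constructor
  · rintro ⟨h1, h2, h3, w, h4, h5, h6, h7⟩
    exact ⟨h1, h3, h2, w, h4, h6, h5, h7⟩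
  · rintro ⟨h1, h2, h3, w, h4, h5, h6, h7⟩
    exact ⟨h1, h3, h2, w, h4, h6, h5, h7⟩

theorem other_perm2 {V : Type} (G : SimpleGraph V) (a b v : V) :
    otherLeaves G b a v = otherLeaves G a b v := by
  unfold otherLeaves
  congr 1
  ext x
  rw [Set.mem_ofPred_eq, Set.mem_ofPred_eq]
  constructor
  · rintro ⟨h1, h2, h3, w, h4, h5, h6, h7⟩
    exact ⟨h2, h1, h3, w, h5, h4, h6, h7⟩
  · rintro ⟨h1, h2, h3, w, h4, h5, h6, h7⟩
    exact ⟨h2, h1, h3, w, h5, h4, h6, h7⟩

theorem card_le {V : Type} [Fintype V] (G : SimpleGraph V)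
    (h2 : Nat.card G.ConnectedComponent = 2) (a b v : V)
    (hav : ¬ G.Reachable a v) :
    Fintype.card V ≤ 3 + inner G a b v + otherLeaves G a b v +
      (pendants G a + pendants G b + pendants G v) := by
  classical
  have hcov : (Set.univ : Set V) ⊆ ({a, b, v} : Set V) ∪
      {x | x ≠ a ∧ x ≠ b ∧ x ≠ v ∧ (G.neighborSet x).Nontrivial} ∪
      {x | x ≠ a ∧ x ≠ b ∧ x ≠ v ∧ ∃ u, u ≠ a ∧ u ≠ b ∧ u ≠ v ∧ G.neighborSet x = {u}} ∪
      {x | G.neighborSet x = {a}} ∪ {x | G.neighborSet x = {b}} ∪
      {x | G.neighborSet x = {v}} := by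
    intro x _
    by_cases h3 : x = a
    · left; left; left; left; left; simp [h3]
    by_cases h4 : x = b
    · left; left; left; left; left; simp [h4]
    by_cases h5 : x = v
    · left; left; left; left; left; simp [h5]
    by_cases h6 : (G.neighborSet x).Nontrivial
    · left; left; left; left; right; exact ⟨h3, h4, h5, h6⟩
    have h7 : (G.neighborSet x).Nonempty := by
      have h8 : ∀ z, G.Reachable z x → z ≠ x → (G.neighborSet x).Nonempty := by
        intro z hz hzx
        obtain ⟨w, hw⟩ := hz.symm.exists_isPath.imp (fun _ _ => trivial)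
        obtain ⟨p⟩ := hz.symm
        cases p with
        | nil => exact absurd rfl hzx
        | cons h _ => exact ⟨_, h⟩
      rcases reach_or h2 hav x with h9 | h9
      · exact h8 a h9 (Ne.symm h3)
      · exact h8 v h9 (Ne.symm h5)
    obtain ⟨z, hz⟩ := h7
    have h8 : G.neighborSet x = {z} := by
      rw [Set.not_nontrivial_iff] at h6
      exact h6.eq_singleton_of_mem hz
    by_cases h9 : z = a
    · left; left; right; rw [← h9]; exact h8
    by_cases h10 : z = b
    · left; right; rw [← h10]; exact h8
    by_cases h11 : z = v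
    · right; rw [← h11]; exact h8
    left; left; left; right
    exact ⟨h3, h4, h5, z, h9, h10, h11, h8⟩
  have h3 := Set.ncard_le_ncard hcov (Set.toFinite _)
  rw [Set.ncard_univ, Nat.card_eq_fintype_card] at h3
  have h4 : ({a, b, v} : Set V).ncard ≤ 3 := by
    refine (Set.ncard_insert_le _ _).trans ?_
    have := Set.ncard_insert_le b ({v} : Set V)
    rw [Set.ncard_singleton] at this
    omega
  unfold inner otherLeaves pendants
  refine h3.trans ((Set.ncard_union_le _ _).trans ?_)
  refine (Nat.add_le_add_right (Set.ncard_union_le _ _) _).trans ?_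
  refine (Nat.add_le_add_right (Nat.add_le_add_right (Set.ncard_union_le _ _) _) _).trans ?_
  refine (Nat.add_le_add_right (Nat.add_le_add_right (Nat.add_le_add_right
    (Set.ncard_union_le _ _) _) _) _).trans ?_
  refine (Nat.add_le_add_right (Nat.add_le_add_right (Nat.add_le_add_right (Nat.add_le_add_right
    (Set.ncard_union_le _ _) _) _) _) _).trans ?_
  omega

/-- Let `ab` be an edge of a forest with two components and `v` a vertex of the component which
does not contain `a`, `b`; let `h` be the number of the other vertices which are not leaves and `l`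
the number of the other leaves which are adjacent to none of `a`, `b`, `v`. If the number of pendant
vertices at one of `a`, `b`, `v`, or the number of all vertices, is large compared to `h` and `l`,
then `G ∪ K₁` is super edge-magic. -/
theorem result (V : Type) [Fintype V] (G : SimpleGraph V) (hG : G.IsAcyclic)
    (h2 : Nat.card G.ConnectedComponent = 2) (a b v : V) (hab : G.Adj a b)
    (hav : ¬ G.Reachable a v)
    (hm : Nat.fib (inner G a b v + 6) + Nat.fib (inner G a b v + 5) * otherLeaves G a b v ≤
        max (pendants G a) (max (pendants G b) (pendants G v)) + inner G a b v +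
          otherLeaves G a b v + 3 ∨
      3 * (Nat.fib (inner G a b v + 6) + Nat.fib (inner G a b v + 5) * otherLeaves G a b v) ≤
        Fintype.card V) :
    SuperEdgeMagic G 1 := by
  have hm' : Nat.fib (inner G a b v + 6) + Nat.fib (inner G a b v + 5) * otherLeaves G a b v ≤
        max (pendants G a) (max (pendants G b) (pendants G v)) + inner G a b v +
          otherLeaves G a b v + 3 := by
    rcases hm with hm | hm
    · exact hm
    · have h3 := card_le G h2 a b v hav
      have h4 : pendants G a ≤ max (pendants G a) (max (pendants G b) (pendants G v)) :=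
        le_max_left _ _
      have h5 : pendants G b ≤ max (pendants G a) (max (pendants G b) (pendants G v)) :=
        (le_max_left _ _).trans (le_max_right _ _)
      have h6 : pendants G v ≤ max (pendants G a) (max (pendants G b) (pendants G v)) :=
        (le_max_right _ _).trans (le_max_right _ _)
      omega
  have hbv : ¬ G.Reachable b v := fun h => hav (hab.reachable.trans h)
  rcases max_choice (pendants G a) (max (pendants G b) (pendants G v)) with h3 | h3
  · rw [h3] at hm'
    refine key G hG h2 a v b hav (Or.inl hab) ?_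
    rw [inner_perm1, other_perm1]
    exact hm'
  rcases max_choice (pendants G b) (pendants G v) with h4 | h4
  · rw [h3, h4] at hm'
    refine key G hG h2 b v a hbv (Or.inl hab.symm) ?_
    rw [inner_perm1, inner_perm2, other_perm1, other_perm2]
    exact hm'
  · rw [h3, h4] at hm'
    refine key G hG h2 v a b (fun h => hav h.symm) (Or.inr hab) ?_
    rw [inner_perm2, inner_perm1, other_perm2, other_perm1]
    exact hm'

end Pool.Agent.Results.MP_6afe48_co.ThreeHubs
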